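import Pool.Agent.RayM.Defs

/-!
# Polar coordinates
-/

namespace Pool.Agent.RayM

open MeasureTheory Set Metric
open scoped ENNReal

variable {n : ℕ}

theorem polar_ae {P : E n → Prop} (h : ∀ᵐ x ∂(volume : Measure (E n)), P x) :
    ∀ᵐ ω : sphere (0 : E n) 1 ∂(volume : Measure (E n)).toSphere,
      ∀ᵐ r ∂(volume : Measure ℝ), 0 < r → P (r • (ω : E n)) := by
  have hmp := (volume : Measure (E n)).measurePreserving_homeomorphUnitSphereProd
  have h1 : ∀ᵐ x : ({0}ᶜ : Set (E n)) ∂((volume : Measure (E n)).comap (↑)), P x := by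
    have h2 : ∀ᵐ x ∂((volume : Measure (E n)).restrict {0}ᶜ), P x := ae_restrict_of_ae h
    exact (ae_restrict_iff_subtype (measurableSet_singleton _).compl).1 h2
  have hmp' := MeasurePreserving.symm (homeomorphUnitSphereProd (E n)).toMeasurableEquiv hmp
  have h3 := hmp'.quasiMeasurePreserving.ae h1
  have h4 := Measure.ae_ae_of_ae_prod h3
  filter_upwards [h4] with ω hω
  unfold Measure.volumeIoiPow at hω
  rw [ae_withDensity_iff (by fun_prop)] at hω
  have h5 : ∀ᵐ r : Ioi (0 : ℝ) ∂(Measure.comap Subtype.val volume), P (r.1 • (ω : E n)) := by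
    filter_upwards [hω] with r hr
    have hr0 : 0 < r.1 := r.2
    exact hr (by
      rw [ne_eq, ENNReal.ofReal_eq_zero, not_le]
      positivity)
  have h6 := (ae_restrict_iff_subtype (p := fun r : ℝ => P (r • (ω : E n)))
    (measurableSet_Ioi (a := (0 : ℝ)))).2 h5
  rw [ae_restrict_iff' measurableSet_Ioi] at h6
  exact h6

theorem polar_lintegral (F : E n → ℝ≥0∞) (hF : Measurable F) [Nontrivial (E n)] :
    ∫⁻ x, F x ∂(volume : Measure (E n)) =
      ∫⁻ ω : sphere (0 : E n) 1, (∫⁻ r in Ioi (0 : ℝ), ENNReal.ofReal (r ^ (n - 1)) *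
        F (r • (ω : E n))) ∂(volume : Measure (E n)).toSphere := by
  have hmp := (volume : Measure (E n)).measurePreserving_homeomorphUnitSphereProd
  have h1 : ∫⁻ x, F x ∂(volume : Measure (E n)) =
      ∫⁻ x : ({0}ᶜ : Set (E n)), F x ∂((volume : Measure (E n)).comap (↑)) := by
    rw [lintegral_subtype_comap (measurableSet_singleton _).compl, restrict_compl_singleton]
  have hmp' := MeasurePreserving.symm (homeomorphUnitSphereProd (E n)).toMeasurableEquiv hmp
  have h2 := hmp'.lintegral_comp (f := fun x : ({0}ᶜ : Set (E n)) => F x)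
    (hF.comp measurable_subtype_coe)
  rw [h1, ← h2]
  have h3 : Measurable (fun p : sphere (0 : E n) 1 × Ioi (0 : ℝ) =>
      F ((homeomorphUnitSphereProd (E n)).toMeasurableEquiv.symm p : E n)) :=
    hF.comp (measurable_subtype_coe.comp (MeasurableEquiv.measurable _))
  rw [lintegral_prod _ h3.aemeasurable]
  congr 1
  ext ω
  have h4 : Measurable (fun r : Ioi (0 : ℝ) =>
      F ((homeomorphUnitSphereProd (E n)).toMeasurableEquiv.symm (ω, r) : E n)) :=
    h3.comp measurable_prodMk_left
  unfold Measure.volumeIoiPow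
  rw [lintegral_withDensity_eq_lintegral_mul _ (by fun_prop) h4]
  have h5 := lintegral_subtype_comap (μ := (volume : Measure ℝ)) (measurableSet_Ioi (a := (0 : ℝ)))
    (fun r => ENNReal.ofReal (r ^ (n - 1)) * F (r • (ω : E n)))
  rw [← h5]
  apply lintegral_congr
  intro r
  simp only [Pi.mul_apply, finrank_euclideanSpace, Fintype.card_fin]
  rfl

end Pool.Agent.RayM
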