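import Mathlib

/-!
# The one-dimensional inequality on a ray
-/

namespace Pool.Agent.RayM

open MeasureTheory Set

/-- The weight `1 + log (R / r)`. -/
noncomputable def tau (R r : ℝ) : ℝ := 1 + Real.log (R / r)

theorem one_le_tau {R r : ℝ} (hr : 0 < r) (hrR : r ≤ R) : 1 ≤ tau R r := by
  unfold tau
  have : 0 ≤ Real.log (R / r) := Real.log_nonneg (by rw [le_div_iff₀ hr]; linarith)
  linarith

theorem hasDerivAt_tau {R r : ℝ} (hR : 0 < R) (hr : 0 < r) : HasDerivAt (tau R) (-r⁻¹) r := by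
  have h1 : HasDerivAt (fun r : ℝ => 1 + (Real.log R - Real.log r)) (-r⁻¹) r := by
    simpa using ((Real.hasDerivAt_log hr.ne').const_sub (Real.log R)).const_add 1
  apply h1.congr_of_eventuallyEq
  filter_upwards [lt_mem_nhds hr] with z hz
  unfold tau
  rw [Real.log_div hR.ne' hz.ne']

theorem hasDerivAt_tau_rpow {R r α : ℝ} (hr : 0 < r) (hrR : r ≤ R) :
    HasDerivAt (fun z => tau R z ^ α) (-(α * tau R r ^ (α - 1) / r)) r := by
  have h1 := (hasDerivAt_tau (hr.trans_le hrR) hr).rpow_const (p := α)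
    (Or.inl (by linarith [one_le_tau hr hrR]))
  convert h1 using 1
  field_simp

theorem ac_tau_rpow {ε R α : ℝ} (hε : 0 < ε) (hεR : ε ≤ R) :
    AbsolutelyContinuousOnInterval (fun z => tau R z ^ α) ε R := by
  apply ContDiffOn.absolutelyContinuousOnInterval
  rw [uIcc_of_le hεR]
  have h1 : ContDiffOn ℝ 1 (tau R) (Icc ε R) := by
    unfold tau
    apply ContDiffOn.add contDiffOn_const
    apply ContDiffOn.log
    · exact contDiffOn_const.div contDiffOn_id (fun z hz => (hε.trans_le hz.1).ne')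
    · intro z hz
      have h2 : 0 < z := hε.trans_le hz.1
      have h3 : 0 < R := hε.trans_le hεR
      positivity
  exact h1.rpow_const_of_ne (fun z hz => by
    have := one_le_tau (hε.trans_le hz.1) hz.2
    positivity)

theorem ac_pow {ρ : ℝ → ℝ} {a b : ℝ} (h : AbsolutelyContinuousOnInterval ρ a b) (n : ℕ) :
    AbsolutelyContinuousOnInterval (fun r => ρ r ^ n) a b := by
  induction n with
  | zero =>
    simp only [pow_zero]
    apply LipschitzOnWith.absolutelyContinuousOnInterval (K := 0)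
    exact (LipschitzWith.const (1 : ℝ)).lipschitzOnWith
  | succ n ih =>
    simp only [pow_succ]
    exact ih.fun_mul h

/-- **Ray inequality.** -/
theorem ray_ineq {n : ℕ} (hn : 1 ≤ n) {ε R α s C j M : ℝ} (hε : 0 < ε) (hεR : ε ≤ R)
    (hα : 0 ≤ α) (hs : 0 ≤ s) (hj : 0 ≤ j) {ρ J Ek : ℝ → ℝ}
    (hρ : AbsolutelyContinuousOnInterval ρ ε R) (hρ0 : ∀ r ∈ Icc ε R, 0 ≤ ρ r) (hρM : ρ R ≤ M)
    (hJ : ∀ᵐ r ∂(volume : Measure ℝ), r ∈ Ioc ε R → 0 ≤ J r ∧
      r ^ (n - 1) * J r = j * ρ r ^ (n - 1) * deriv ρ r ∧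
      α / n * (ρ r / r) ^ n * j * tau R r ^ (α - 1) ≤ s * (J r * tau R r ^ α) + C * Ek r) :
    ENNReal.ofReal (1 - s) * ∫⁻ r in Ioc ε R, ENNReal.ofReal (r ^ (n - 1) * (J r * tau R r ^ α)) ≤
      ENNReal.ofReal (j * M ^ n / n) +
        ∫⁻ r in Ioc ε R, ENNReal.ofReal (r ^ (n - 1) * (C * Ek r)) := by
  have hR : 0 < R := hε.trans_le hεR
  have hn0 : (0 : ℝ) < n := by exact_mod_cast hn
  set T : ℝ → ℝ := fun z => tau R z ^ α with hTdef
  set u : ℝ → ℝ := fun r => ρ r ^ n with hudef
  set W : ℝ → ℝ := fun r => r ^ (n - 1) * (J r * T r) with hWdef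
  set Y : ℝ → ℝ := fun r => r ^ (n - 1) * (α / n * (ρ r / r) ^ n * j * tau R r ^ (α - 1)) with hY
  have hT : AbsolutelyContinuousOnInterval T ε R := ac_tau_rpow hε hεR
  have hu : AbsolutelyContinuousOnInterval u ε R := ac_pow hρ n
  have hpos : ∀ r ∈ Ioc ε R, 0 < r := fun r hr => hε.trans hr.1
  have hT0 : ∀ r ∈ Ioc ε R, 0 ≤ T r := fun r hr => by
    have := one_le_tau (hpos r hr) hr.2
    positivity
  -- almost everywhere identities
  have hWae : ∀ᵐ r ∂(volume : Measure ℝ), r ∈ Ioc ε R → W r = j / n * (deriv u r * T r) := by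
    filter_upwards [hJ, hρ.ae_differentiableAt] with r h1 h2 hr
    have hr' : r ∈ uIcc ε R := by rw [uIcc_of_le hεR]; exact ⟨hr.1.le, hr.2⟩
    obtain ⟨_, h3, _⟩ := h1 hr
    have h4 : deriv u r = n * ρ r ^ (n - 1) * deriv ρ r := by
      have := ((h2 hr').hasDerivAt.fun_pow n).deriv
      simpa [hudef] using this
    rw [h4]
    simp only [hWdef]
    rw [← mul_assoc, h3]
    field_simp
  have hYid : ∀ r ∈ Ioc ε R, Y r = -(j / n) * (u r * deriv T r) := by
    intro r hr
    have hr0 := hpos r hr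
    have h1 : deriv T r = -(α * tau R r ^ (α - 1) / r) := (hasDerivAt_tau_rpow hr0 hr.2).deriv
    obtain ⟨m, rfl⟩ : ∃ m, n = m + 1 := ⟨n - 1, by omega⟩
    rw [h1]
    simp only [hY, hudef, Nat.add_sub_cancel]
    rw [div_pow, pow_succ r m]
    field_simp
  -- integrability
  have hi1 : IntervalIntegrable (fun r => deriv u r * T r) volume ε R :=
    hu.intervalIntegrable_deriv.mul_continuousOn hT.continuousOn
  have hi2 : IntervalIntegrable (fun r => u r * deriv T r) volume ε R :=
    hT.intervalIntegrable_deriv.continuousOn_mul hu.continuousOn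
  have hWi : IntegrableOn W (Ioc ε R) := by
    have h1 : IntegrableOn (fun r => j / n * (deriv u r * T r)) (Ioc ε R) :=
      ((intervalIntegrable_iff_integrableOn_Ioc_of_le hεR).1 hi1).const_mul _
    apply h1.congr
    rw [Filter.EventuallyEq, ae_restrict_iff' measurableSet_Ioc]
    filter_upwards [hWae] with r h hr using (h hr).symm
  have hYi : IntegrableOn Y (Ioc ε R) := by
    have h1 : IntegrableOn (fun r => -(j / n) * (u r * deriv T r)) (Ioc ε R) :=
      ((intervalIntegrable_iff_integrableOn_Ioc_of_le hεR).1 hi2).const_mul _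
    exact h1.congr_fun (fun r hr => (hYid r hr).symm) measurableSet_Ioc
  have hW0 : ∀ᵐ r ∂((volume : Measure ℝ).restrict (Ioc ε R)), 0 ≤ W r := by
    rw [ae_restrict_iff' measurableSet_Ioc]
    filter_upwards [hJ] with r h hr
    have h1 := (h hr).1
    have h2 := hT0 r hr
    have h3 := hpos r hr
    simp only [hWdef]
    positivity
  have hY0 : ∀ᵐ r ∂((volume : Measure ℝ).restrict (Ioc ε R)), 0 ≤ Y r := by
    rw [ae_restrict_iff' measurableSet_Ioc]
    filter_upwards with r hr
    have h1 := hρ0 r ⟨hr.1.le, hr.2⟩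
    have h3 := hpos r hr
    have h4 := one_le_tau h3 hr.2
    simp only [hY]
    positivity
  -- integration by parts
  have hparts := hu.integral_deriv_mul_eq_sub hT
  rw [intervalIntegral.integral_add hi1 hi2] at hparts
  have hX : ∫ r in Ioc ε R, W r = j / n * ∫ r in ε..R, deriv u r * T r := by
    rw [intervalIntegral.integral_of_le hεR, ← integral_const_mul]
    apply setIntegral_congr_ae measurableSet_Ioc
    exact hWae
  have hYint : ∫ r in Ioc ε R, Y r = -(j / n) * ∫ r in ε..R, u r * deriv T r := by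
    rw [intervalIntegral.integral_of_le hεR, ← integral_const_mul]
    exact setIntegral_congr_fun measurableSet_Ioc hYid
  have hTR : T R = 1 := by
    simp [hTdef, tau, hR.ne']
  have hkey : ∫ r in Ioc ε R, W r ≤ j * M ^ n / n + ∫ r in Ioc ε R, Y r := by
    have h1 : 0 ≤ u ε * T ε := by
      have h2 := hρ0 ε ⟨le_refl _, hεR⟩
      have h3 := one_le_tau hε hεR
      simp only [hudef, hTdef]
      positivity
    have h2 : u R ≤ M ^ n := by
      have h3 := hρ0 R ⟨hεR, le_refl _⟩
      simp only [hudef]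
      gcongr
    have h3 : 0 ≤ j / n := by positivity
    rw [hX, hYint]
    have h4 : ∫ r in ε..R, deriv u r * T r =
        u R * T R - u ε * T ε - ∫ r in ε..R, u r * deriv T r := by linarith
    rw [h4, hTR]
    have h5 : j / n * (u R * 1 - u ε * T ε) ≤ j / n * M ^ n := by
      gcongr
      linarith
    have h6 : j * M ^ n / n = j / n * M ^ n := by ring
    rw [h6]
    linarith
  -- pass to lower integrals
  set X := ∫ r in Ioc ε R, W r with hXdef
  have hX0 : 0 ≤ X := integral_nonneg_of_ae hW0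
  have hXl : ∫⁻ r in Ioc ε R, ENNReal.ofReal (W r) = ENNReal.ofReal X :=
    (ofReal_integral_eq_lintegral_ofReal hWi hW0).symm
  have hYl : ∫⁻ r in Ioc ε R, ENNReal.ofReal (Y r) = ENNReal.ofReal (∫ r in Ioc ε R, Y r) :=
    (ofReal_integral_eq_lintegral_ofReal hYi hY0).symm
  set Z := ∫⁻ r in Ioc ε R, ENNReal.ofReal (r ^ (n - 1) * (C * Ek r)) with hZ
  have hYle : ENNReal.ofReal (∫ r in Ioc ε R, Y r) ≤ ENNReal.ofReal (s * X) + Z := by
    rw [← hYl]
    calc ∫⁻ r in Ioc ε R, ENNReal.ofReal (Y r)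
        ≤ ∫⁻ r in Ioc ε R, (ENNReal.ofReal (s * W r) +
            ENNReal.ofReal (r ^ (n - 1) * (C * Ek r))) := by
          apply lintegral_mono_ae
          rw [ae_restrict_iff' measurableSet_Ioc]
          filter_upwards [hJ] with r h hr
          obtain ⟨_, _, h1⟩ := h hr
          have h3 := hpos r hr
          have h2 : Y r ≤ s * W r + r ^ (n - 1) * (C * Ek r) := by
            simp only [hY, hWdef]
            calc r ^ (n - 1) * (α / n * (ρ r / r) ^ n * j * tau R r ^ (α - 1))
                ≤ r ^ (n - 1) * (s * (J r * tau R r ^ α) + C * Ek r) := by gcongr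
              _ = _ := by simp only [hTdef]; ring
          calc ENNReal.ofReal (Y r) ≤ ENNReal.ofReal (s * W r + r ^ (n - 1) * (C * Ek r)) :=
                ENNReal.ofReal_le_ofReal h2
            _ ≤ _ := ENNReal.ofReal_add_le
      _ = (∫⁻ r in Ioc ε R, ENNReal.ofReal (s * W r)) + Z := by
          rw [lintegral_add_left']
          exact ((hWi.1.const_mul s).aemeasurable).ennreal_ofReal
      _ = ENNReal.ofReal (s * X) + Z := by
          congr 1
          rw [← ofReal_integral_eq_lintegral_ofReal (hWi.const_mul s)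
            (by filter_upwards [hW0] with r hr; exact mul_nonneg hs hr), integral_const_mul]
  have hfin : ∫⁻ r in Ioc ε R, ENNReal.ofReal (r ^ (n - 1) * (J r * tau R r ^ α)) =
      ENNReal.ofReal X := hXl
  rw [hfin]
  by_cases hZt : Z = ⊤
  · rw [hZt]; simp
  have hM0 : 0 ≤ j * M ^ n / n := by
    have := (hρ0 R ⟨hεR, le_refl _⟩).trans hρM
    positivity
  have h1 : ∫ r in Ioc ε R, Y r ≤ s * X + Z.toReal := by
    rw [← ENNReal.ofReal_toReal hZt, ← ENNReal.ofReal_add (by positivity) (by positivity)] at hYle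
    exact (ENNReal.ofReal_le_ofReal_iff (by positivity)).1 hYle
  have h2 : (1 - s) * X ≤ j * M ^ n / n + Z.toReal := by linarith
  rw [← ENNReal.ofReal_mul' hX0]
  calc ENNReal.ofReal ((1 - s) * X) ≤ ENNReal.ofReal (j * M ^ n / n + Z.toReal) :=
        ENNReal.ofReal_le_ofReal h2
    _ = ENNReal.ofReal (j * M ^ n / n) + Z := by
        rw [ENNReal.ofReal_add hM0 (by positivity), ENNReal.ofReal_toReal hZt]

end Pool.Agent.RayM
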