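import Mathlib

/-!
# Elementary inequalities between powers, logarithms and exponentials
-/

namespace Pool.Agent.RayM

open Set

theorem rpow_le_exp (a : ℝ) {c : ℝ} (hc : 0 < c) :
    ∃ C : ℝ, 0 < C ∧ ∀ x : ℝ, 1 ≤ x → x ^ a ≤ C * Real.exp (c * x) := by
  obtain ⟨m, hm⟩ := exists_nat_ge a
  refine ⟨(m.factorial : ℝ) / c ^ m, by positivity, fun x hx => ?_⟩
  have hx0 : 0 < x := by linarith
  have h1 : x ^ a ≤ x ^ m := by
    rw [← Real.rpow_natCast]
    exact Real.rpow_le_rpow_of_exponent_le hx hm
  have h2 := Real.pow_div_factorial_le_exp (c * x) (by positivity) m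
  rw [div_le_iff₀ (by positivity), mul_pow] at h2
  calc x ^ a ≤ x ^ m := h1
    _ = (c ^ m * x ^ m) / c ^ m := by field_simp
    _ ≤ (Real.exp (c * x) * m.factorial) / c ^ m := by gcongr
    _ = (m.factorial : ℝ) / c ^ m * Real.exp (c * x) := by ring

/-- Absorption. -/
theorem absorb {n : ℕ} (hn : 1 ≤ n) {α β s : ℝ} (hα : 0 < α) (hβ : 0 < β) (hs : α < s * β)
    {R M Λ : ℝ} (hR : 0 < R) (hM : 0 ≤ M) (hΛ : 0 ≤ Λ) :
    ∃ C : ℝ, 0 ≤ C ∧ ∀ t r G j J K : ℝ, 1 ≤ t → 0 < r → Real.exp (t - 1) = R / r →
      0 ≤ G → G * r ≤ M → 0 ≤ j → j ≤ Λ → 0 ≤ J → G ^ n * j ≤ K * J →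
      α / n * G ^ n * j * t ^ (α - 1) ≤ s * (J * t ^ α) + C * Real.exp (β * K) := by
  have hn0 : (0 : ℝ) < n := by exact_mod_cast hn
  have hδ : 0 < β * s / α - 1 := by
    rw [sub_pos, lt_div_iff₀ hα]; linarith
  have hs0 : 0 < s := by
    by_contra hcon
    push Not at hcon
    nlinarith
  obtain ⟨C, hC, hCx⟩ := rpow_le_exp (α - 1) (c := n * (β * s / α - 1)) (by positivity)
  refine ⟨α / n * (M / R) ^ n * Λ * C, by positivity, ?_⟩
  intro t r G j J K ht hr hexp hG hGr hj hjΛ hJ hK
  have ht0 : 0 < t := by linarith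
  by_cases hcase : K ≤ n * s * t / α
  · have h1 : α / n * G ^ n * j * t ^ (α - 1) ≤ s * (J * t ^ α) := by
      have h2 : t ^ α = t ^ (α - 1) * t := by
        rw [← Real.rpow_add_one ht0.ne']; ring_nf
      calc α / n * G ^ n * j * t ^ (α - 1) = α / n * (G ^ n * j) * t ^ (α - 1) := by ring
        _ ≤ α / n * (K * J) * t ^ (α - 1) := by gcongr
        _ ≤ α / n * ((n * s * t / α) * J) * t ^ (α - 1) := by gcongr
        _ = s * (J * t ^ α) := by rw [h2]; field_simp
    have h3 : 0 ≤ α / n * (M / R) ^ n * Λ * C * Real.exp (β * K) := by positivity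
    linarith
  · push Not at hcase
    have h1 : G ≤ M / R * Real.exp t := by
      have h2 : G ≤ M / r := by rw [le_div_iff₀ hr]; exact hGr
      have h3 : Real.exp (t - 1) ≤ Real.exp t := Real.exp_le_exp.2 (by linarith)
      calc G ≤ M / r := h2
        _ = M / R * (R / r) := by field_simp
        _ = M / R * Real.exp (t - 1) := by rw [hexp]
        _ ≤ M / R * Real.exp t := by gcongr
    have h4 : G ^ n ≤ (M / R) ^ n * Real.exp (n * t) := by
      calc G ^ n ≤ (M / R * Real.exp t) ^ n := by gcongr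
        _ = (M / R) ^ n * Real.exp (n * t) := by
          rw [mul_pow, ← Real.exp_nat_mul]
    have h5 := hCx t ht
    have h6 : Real.exp (n * t) * Real.exp (n * (β * s / α - 1) * t) ≤ Real.exp (β * K) := by
      rw [← Real.exp_add, Real.exp_le_exp]
      have h7 : β * (n * s * t / α) ≤ β * K := by gcongr
      calc n * t + n * (β * s / α - 1) * t = β * (n * s * t / α) := by field_simp; ring
        _ ≤ β * K := h7
    have h8 : α / n * G ^ n * j * t ^ (α - 1) ≤
        α / n * (M / R) ^ n * Λ * C * Real.exp (β * K) := by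
      calc α / n * G ^ n * j * t ^ (α - 1)
          ≤ α / n * ((M / R) ^ n * Real.exp (n * t)) * Λ *
            (C * Real.exp (n * (β * s / α - 1) * t)) := by gcongr
        _ = α / n * (M / R) ^ n * Λ * C *
            (Real.exp (n * t) * Real.exp (n * (β * s / α - 1) * t)) := by ring
        _ ≤ α / n * (M / R) ^ n * Λ * C * Real.exp (β * K) := by gcongr
    have h9 : 0 ≤ s * (J * t ^ α) := by positivity
    linarith

theorem one_le_log_exp_add {x : ℝ} (hx : 0 ≤ x) : 1 ≤ Real.log (Real.exp 1 + x) := by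
  rw [Real.le_log_iff_exp_le (by positivity)]
  linarith

/-- From the weight to the logarithm of the Jacobian. -/
theorem jlog_le (n : ℕ) {α β : ℝ} (hα : 0 ≤ α) (hβ : 0 < β) {A : ℝ} (hA : 0 ≤ A) :
    ∃ C : ℝ, 0 ≤ C ∧ ∀ t J K : ℝ, 1 ≤ t → 0 ≤ J → 1 ≤ K → J ≤ A * K * Real.exp (n * t) →
      J * Real.log (Real.exp 1 + J) ^ α ≤ C * (J * t ^ α + Real.exp (β * K)) := by
  set c : ℝ := Real.log (Real.exp 1 + A) + (n + 1) with hc
  have hlogA := one_le_log_exp_add hA
  have hc0 : 0 < c := by positivity
  obtain ⟨C, hC, hCx⟩ := rpow_le_exp ((n + 1 : ℕ) + α) hβ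
  refine ⟨c ^ α + A * c ^ α * C, by positivity, ?_⟩
  intro t J K ht hJ hK hle
  have ht0 : 0 < t := by linarith
  have hK0 : 0 < K := by linarith
  have hlogJ := one_le_log_exp_add hJ
  by_cases hcase : K ≤ Real.exp t
  · have h1 : J ≤ A * Real.exp ((n + 1) * t) := by
      calc J ≤ A * K * Real.exp (n * t) := hle
        _ ≤ A * Real.exp t * Real.exp (n * t) := by gcongr
        _ = A * Real.exp ((n + 1) * t) := by
          rw [mul_assoc, ← Real.exp_add]; ring_nf
    have h2 : Real.log (Real.exp 1 + J) ≤ c * t := by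
      have h3 : Real.exp 1 + J ≤ (Real.exp 1 + A) * Real.exp ((n + 1) * t) := by
        have h4 : 1 ≤ Real.exp ((n + 1) * t) := Real.one_le_exp (by positivity)
        nlinarith [Real.exp_pos 1]
      calc Real.log (Real.exp 1 + J) ≤ Real.log ((Real.exp 1 + A) * Real.exp ((n + 1) * t)) :=
            Real.log_le_log (by positivity) h3
        _ = Real.log (Real.exp 1 + A) + (n + 1) * t := by
            rw [Real.log_mul (by positivity) (by positivity), Real.log_exp]
        _ ≤ Real.log (Real.exp 1 + A) * t + (n + 1) * t := by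
            gcongr
            nlinarith
        _ = c * t := by rw [hc]; ring
    calc J * Real.log (Real.exp 1 + J) ^ α ≤ J * (c * t) ^ α := by gcongr
      _ = c ^ α * (J * t ^ α) := by rw [Real.mul_rpow hc0.le ht0.le]; ring
      _ ≤ (c ^ α + A * c ^ α * C) * (J * t ^ α + Real.exp (β * K)) := by
        have h5 : 0 ≤ A * c ^ α * C := by positivity
        have h6 : 0 ≤ J * t ^ α := by positivity
        have h7 : 0 < Real.exp (β * K) := Real.exp_pos _
        have h8 : 0 < c ^ α := by positivity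
        nlinarith [mul_nonneg h5 h6, mul_nonneg h5 h7.le, mul_nonneg h8.le h7.le]
  · push Not at hcase
    have h1 : J ≤ A * K ^ (n + 1) := by
      calc J ≤ A * K * Real.exp (n * t) := hle
        _ = A * K * Real.exp t ^ n := by rw [← Real.exp_nat_mul]
        _ ≤ A * K * K ^ n := by gcongr
        _ = A * K ^ (n + 1) := by ring
    have h2 : Real.log (Real.exp 1 + J) ≤ c * K := by
      have h3 : Real.exp 1 + J ≤ (Real.exp 1 + A) * K ^ (n + 1) := by
        have h4 : 1 ≤ K ^ (n + 1) := one_le_pow₀ hK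
        nlinarith [Real.exp_pos 1]
      have hlK : Real.log K ≤ K := by linarith [Real.log_le_sub_one_of_pos hK0]
      calc Real.log (Real.exp 1 + J) ≤ Real.log ((Real.exp 1 + A) * K ^ (n + 1)) :=
            Real.log_le_log (by positivity) h3
        _ = Real.log (Real.exp 1 + A) + (n + 1) * Real.log K := by
            rw [Real.log_mul (by positivity) (by positivity), Real.log_pow]; push_cast; ring
        _ ≤ Real.log (Real.exp 1 + A) * K + (n + 1) * K := by
            gcongr
            nlinarith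
        _ = c * K := by rw [hc]; ring
    have h5 := hCx K hK
    have h6 : K ^ (n + 1) * K ^ α = K ^ (((n + 1 : ℕ) : ℝ) + α) := by
      rw [Real.rpow_add hK0, Real.rpow_natCast]
    calc J * Real.log (Real.exp 1 + J) ^ α ≤ (A * K ^ (n + 1)) * (c * K) ^ α := by gcongr
      _ = A * c ^ α * (K ^ (n + 1) * K ^ α) := by rw [Real.mul_rpow hc0.le hK0.le]; ring
      _ = A * c ^ α * K ^ (((n + 1 : ℕ) : ℝ) + α) := by rw [h6]
      _ ≤ A * c ^ α * (C * Real.exp (β * K)) := by gcongr
      _ ≤ (c ^ α + A * c ^ α * C) * (J * t ^ α + Real.exp (β * K)) := by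
        have h5 : 0 ≤ A * c ^ α * C := by positivity
        have h6 : 0 ≤ J * t ^ α := by positivity
        have h7 : 0 < Real.exp (β * K) := Real.exp_pos _
        have h8 : 0 < c ^ α := by positivity
        nlinarith [mul_nonneg h5 h6, mul_nonneg h8.le h7.le, mul_nonneg h8.le h6]

theorem exp_add_pow_le {D : ℝ} (hD : 0 ≤ D) {n : ℕ} (hn : 1 ≤ n) :
    Real.exp 1 + D ^ n ≤ (Real.exp 1 + D) ^ n := by
  induction n, hn using Nat.le_induction with
  | base => simp
  | succ m hm ih =>
    have he : 1 ≤ Real.exp 1 := Real.one_le_exp zero_le_one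
    have h1 : 0 ≤ D ^ m := by positivity
    calc Real.exp 1 + D ^ (m + 1) ≤ (Real.exp 1 + D) * (Real.exp 1 + D ^ m) := by
          rw [pow_succ]
          nlinarith [mul_nonneg h1 hD, mul_nonneg (Real.exp_pos 1).le h1,
            mul_nonneg (Real.exp_pos 1).le hD]
      _ ≤ (Real.exp 1 + D) * (Real.exp 1 + D) ^ m := by gcongr
      _ = (Real.exp 1 + D) ^ (m + 1) := by ring

/-- From the Jacobian to the differential. -/
theorem dlog_le {n : ℕ} (hn : 1 ≤ n) (α : ℝ) {β : ℝ} (hβ : 0 < β) :
    ∃ C : ℝ, 0 ≤ C ∧ ∀ D J K : ℝ, 0 ≤ D → 0 ≤ J → 1 ≤ K → D ^ n = K * J →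
      D ^ n * Real.log (Real.exp 1 + D) ^ (α - 1) ≤
        C * (J * Real.log (Real.exp 1 + J) ^ α + Real.exp (β * K)) := by
  have hn0 : (0 : ℝ) < n := by exact_mod_cast hn
  set c₁ : ℝ := Real.log (Real.exp 1 + 1 + 2 / β) + 2 with hc₁
  have hc₁0 : 1 ≤ c₁ := by
    have : 0 ≤ Real.log (Real.exp 1 + 1 + 2 / β) := by
      apply Real.log_nonneg
      have h1 : 0 < 2 / β := by positivity
      linarith [Real.exp_pos 1]
    linarith
  set c₂ : ℝ := Real.log (Real.exp 1 + 2) + 1 + β / 2 with hc₂
  have hc₂0 : 1 ≤ c₂ := by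
    have : 0 ≤ Real.log (Real.exp 1 + 2) := by
      apply Real.log_nonneg
      linarith [Real.exp_pos 1]
    have h2 : 0 < β / 2 := by positivity
    linarith
  obtain ⟨C, hC, hCx⟩ := rpow_le_exp (1 + |α - 1|) (c := β / 2) (by positivity)
  have hC₁ : 0 ≤ 2 / β * c₁ ^ (α - 1) := by positivity
  have hC₂ : 0 ≤ 2 / β * (1 / n : ℝ) ^ (α - 1) := by positivity
  have hC₃ : 0 ≤ c₂ ^ |α - 1| * C := by positivity
  refine ⟨2 / β * c₁ ^ (α - 1) + 2 / β * (1 / n : ℝ) ^ (α - 1) + c₂ ^ |α - 1| * C,
    by positivity, ?_⟩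
  intro D J K hD hJ hK hDK
  have hK0 : 0 < K := by linarith
  set L := Real.log (Real.exp 1 + J) with hL
  have hL1 : 1 ≤ L := one_le_log_exp_add hJ
  have hL0 : 0 < L := by linarith
  have hLD1 : 1 ≤ Real.log (Real.exp 1 + D) := one_le_log_exp_add hD
  have hD1 : D ≤ 1 + D ^ n := by
    by_cases h : D ≤ 1
    · have : 0 ≤ D ^ n := by positivity
      linarith
    · push Not at h
      have : D ≤ D ^ n := le_self_pow₀ h.le (by omega)
      linarith
  have hJL : 0 ≤ J * L ^ α := by positivity
  have hexp : 0 < Real.exp (β * K) := Real.exp_pos _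
  have hLα : L ^ α = L ^ (α - 1) * L := by
    rw [← Real.rpow_add_one hL0.ne']; ring_nf
  by_cases hcase : K ≤ 2 / β * L
  · have hDn : D ^ n ≤ 2 / β * L * J := by
      rw [hDK]; gcongr
    by_cases hα : 1 ≤ α
    · have h1 : Real.log (Real.exp 1 + D) ≤ c₁ * L := by
        have h2 : L ≤ Real.exp 1 + J := by
          have := Real.log_le_sub_one_of_pos (show 0 < Real.exp 1 + J by positivity)
          linarith
        have he : 1 ≤ Real.exp 1 + J := by
          linarith [Real.one_le_exp (zero_le_one (α := ℝ))]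
        have h3 : Real.exp 1 + D ≤ (Real.exp 1 + 1 + 2 / β) * (Real.exp 1 + J) ^ 2 := by
          have h4 : 2 / β * L * J ≤ 2 / β * (Real.exp 1 + J) ^ 2 := by
            calc 2 / β * L * J ≤ 2 / β * (Real.exp 1 + J) * (Real.exp 1 + J) := by
                  gcongr
                  linarith [Real.exp_pos 1]
              _ = _ := by ring
          have h5 : Real.exp 1 + 1 ≤ (Real.exp 1 + 1) * (Real.exp 1 + J) ^ 2 := by
            have h6 : 1 ≤ (Real.exp 1 + J) ^ 2 := one_le_pow₀ he
            nlinarith [Real.exp_pos 1]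
          calc Real.exp 1 + D ≤ Real.exp 1 + 1 + 2 / β * L * J := by linarith
            _ ≤ (Real.exp 1 + 1) * (Real.exp 1 + J) ^ 2 + 2 / β * (Real.exp 1 + J) ^ 2 := by
                linarith
            _ = _ := by ring
        calc Real.log (Real.exp 1 + D)
            ≤ Real.log ((Real.exp 1 + 1 + 2 / β) * (Real.exp 1 + J) ^ 2) :=
              Real.log_le_log (by positivity) h3
          _ = Real.log (Real.exp 1 + 1 + 2 / β) + 2 * L := by
              rw [Real.log_mul (by positivity) (by positivity), Real.log_pow]; push_cast; ring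
          _ ≤ Real.log (Real.exp 1 + 1 + 2 / β) * L + 2 * L := by
              have : 0 ≤ Real.log (Real.exp 1 + 1 + 2 / β) := by
                apply Real.log_nonneg
                have h1 : 0 < 2 / β := by positivity
                linarith [Real.exp_pos 1]
              gcongr
              nlinarith
          _ = c₁ * L := by rw [hc₁]; ring
      calc D ^ n * Real.log (Real.exp 1 + D) ^ (α - 1)
          ≤ (2 / β * L * J) * (c₁ * L) ^ (α - 1) := by
            gcongr
        _ = 2 / β * c₁ ^ (α - 1) * (J * L ^ α) := by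
            rw [Real.mul_rpow (by linarith) hL0.le, hLα]; ring
        _ ≤ _ := by
            nlinarith [mul_nonneg hC₁ hexp.le, mul_nonneg hC₂ hJL, mul_nonneg hC₂ hexp.le,
              mul_nonneg hC₃ hJL, mul_nonneg hC₃ hexp.le]
    · push Not at hα
      have h1 : 1 / n * L ≤ Real.log (Real.exp 1 + D) := by
        have h2 : Real.exp 1 + J ≤ (Real.exp 1 + D) ^ n := by
          calc Real.exp 1 + J ≤ Real.exp 1 + D ^ n := by
                rw [hDK]
                nlinarith
            _ ≤ _ := exp_add_pow_le hD hn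
        have h3 : L ≤ n * Real.log (Real.exp 1 + D) := by
          rw [← Real.log_pow]
          exact Real.log_le_log (by positivity) h2
        rw [div_mul_eq_mul_div, one_mul, div_le_iff₀ hn0]
        linarith
      calc D ^ n * Real.log (Real.exp 1 + D) ^ (α - 1)
          ≤ (2 / β * L * J) * (1 / n * L) ^ (α - 1) := by
            gcongr ?_ * ?_
            exact Real.rpow_le_rpow_of_nonpos (by positivity) h1 (by linarith)
        _ = 2 / β * (1 / n : ℝ) ^ (α - 1) * (J * L ^ α) := by
            rw [Real.mul_rpow (by positivity) hL0.le, hLα]; ring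
        _ ≤ _ := by
            nlinarith [mul_nonneg hC₁ hexp.le, mul_nonneg hC₁ hJL, mul_nonneg hC₂ hexp.le,
              mul_nonneg hC₃ hJL, mul_nonneg hC₃ hexp.le]
  · push Not at hcase
    have h1 : L < β / 2 * K := by
      have h2 : β / 2 * (2 / β * L) < β / 2 * K := by gcongr
      calc L = β / 2 * (2 / β * L) := by field_simp
        _ < _ := h2
    have h2 : J ≤ Real.exp (β / 2 * K) := by
      have h3 : Real.exp 1 + J = Real.exp L := by
        rw [hL, Real.exp_log (by positivity)]
      have h4 : Real.exp L ≤ Real.exp (β / 2 * K) := Real.exp_le_exp.2 h1.le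
      linarith [Real.exp_pos 1]
    have hDn : D ^ n ≤ K * Real.exp (β / 2 * K) := by
      rw [hDK]; gcongr
    have h5 : Real.log (Real.exp 1 + D) ≤ c₂ * K := by
      have hlK : Real.log K ≤ K := by linarith [Real.log_le_sub_one_of_pos hK0]
      have h6 : Real.exp 1 + D ≤ (Real.exp 1 + 2) * (K * Real.exp (β / 2 * K)) := by
        have h7 : 1 ≤ K * Real.exp (β / 2 * K) := by
          have : 1 ≤ Real.exp (β / 2 * K) := Real.one_le_exp (by positivity)
          nlinarith
        nlinarith [Real.exp_pos 1]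
      calc Real.log (Real.exp 1 + D)
          ≤ Real.log ((Real.exp 1 + 2) * (K * Real.exp (β / 2 * K))) :=
            Real.log_le_log (by positivity) h6
        _ = Real.log (Real.exp 1 + 2) + (Real.log K + β / 2 * K) := by
            rw [Real.log_mul (by positivity) (by positivity),
              Real.log_mul (by positivity) (by positivity), Real.log_exp]
        _ ≤ Real.log (Real.exp 1 + 2) * K + (1 * K + β / 2 * K) := by
            have : 0 ≤ Real.log (Real.exp 1 + 2) := by
              apply Real.log_nonneg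
              linarith [Real.exp_pos 1]
            gcongr
            · nlinarith
            · linarith
        _ = c₂ * K := by rw [hc₂]; ring
    have h8 : Real.log (Real.exp 1 + D) ^ (α - 1) ≤ (c₂ * K) ^ |α - 1| := by
      calc Real.log (Real.exp 1 + D) ^ (α - 1) ≤ Real.log (Real.exp 1 + D) ^ |α - 1| :=
            Real.rpow_le_rpow_of_exponent_le hLD1 (le_abs_self _)
        _ ≤ (c₂ * K) ^ |α - 1| := by gcongr
    have h9 := hCx K hK
    calc D ^ n * Real.log (Real.exp 1 + D) ^ (α - 1)
        ≤ (K * Real.exp (β / 2 * K)) * (c₂ * K) ^ |α - 1| := by gcongr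
      _ = c₂ ^ |α - 1| * K ^ (1 + |α - 1|) * Real.exp (β / 2 * K) := by
          rw [Real.mul_rpow (by linarith) hK0.le, Real.rpow_add hK0, Real.rpow_one]; ring
      _ ≤ c₂ ^ |α - 1| * (C * Real.exp (β / 2 * K)) * Real.exp (β / 2 * K) := by gcongr
      _ = c₂ ^ |α - 1| * C * Real.exp (β * K) := by
          rw [mul_assoc, mul_assoc, mul_assoc, ← Real.exp_add]; ring_nf
      _ ≤ _ := by
          nlinarith [mul_nonneg hC₁ hexp.le, mul_nonneg hC₁ hJL, mul_nonneg hC₂ hexp.le,
            mul_nonneg hC₃ hJL, mul_nonneg hC₂ hJL]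

end Pool.Agent.RayM
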