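import Pool.Agent.RayM.Facts
import Pool.Agent.RayM.Polar
import Pool.Agent.RayM.Ray1D
import Pool.Agent.RayM.Real

/-!
# The estimate at the centre
-/

namespace Pool.Agent.RayM

open MeasureTheory Set Metric
open scoped RealInnerProductSpace ENNReal

variable {n : ℕ}

theorem measurable_jac (f : E n → E n) : Measurable (jac f) :=
  ContinuousLinearMap.continuous_det.measurable.comp (measurable_fderiv ℝ f)

theorem measurable_norm_fderiv (f : E n → E n) : Measurable (fun x => ‖fderiv ℝ f x‖) :=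
  (measurable_fderiv ℝ f).norm

theorem measurable_distortion (f : E n → E n) : Measurable (distortion f) := by
  unfold distortion
  exact Measurable.ite (measurableSet_lt measurable_const (measurable_jac f))
    (((measurable_norm_fderiv f).pow_const n).div (measurable_jac f)) measurable_const

theorem nontrivial_E (hn : 2 ≤ n) : Nontrivial (E n) := by
  have : Nonempty (Fin n) := ⟨⟨0, by omega⟩⟩
  infer_instance

theorem polar_ball (hn : 2 ≤ n) (a : E n) (R : ℝ) (F : E n → ℝ≥0∞) (hF : Measurable F) :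
    ∫⁻ x in closedBall a R, F x ∂(volume : Measure (E n)) =
      ∫⁻ ω : sphere (0 : E n) 1, (∫⁻ r in Ioc (0 : ℝ) R, ENNReal.ofReal (r ^ (n - 1)) *
        F (a + r • (ω : E n))) ∂(volume : Measure (E n)).toSphere := by
  have := nontrivial_E hn
  rw [← lintegral_indicator measurableSet_closedBall,
    ← lintegral_add_left_eq_self (μ := (volume : Measure (E n))) _ a,
    polar_lintegral (fun y => (closedBall a R).indicator F (a + y))
      ((hF.indicator measurableSet_closedBall).comp (measurable_const_add a))]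
  congr 1
  ext ω
  have hω : ‖(ω : E n)‖ = 1 := by simp
  have h1 : Ioc (0 : ℝ) R = Iic R ∩ Ioi 0 := by
    ext r; simp [and_comm]
  rw [h1, ← Measure.restrict_restrict measurableSet_Iic, ← lintegral_indicator measurableSet_Iic]
  apply setLIntegral_congr_fun measurableSet_Ioi
  intro r hr
  have hr0 : 0 < r := hr
  have hmem : a + r • (ω : E n) ∈ closedBall a R ↔ r ≤ R := by
    rw [mem_closedBall, dist_eq_norm, add_sub_cancel_left, norm_smul, hω, mul_one,
      Real.norm_of_nonneg hr0.le]
  change ENNReal.ofReal (r ^ (n - 1)) * (closedBall a R).indicator F (a + r • (ω : E n)) = _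
  by_cases h : r ≤ R
  · rw [indicator_of_mem (hmem.2 h), indicator_of_mem (by exact h : r ∈ Iic R)]
  · rw [indicator_of_notMem (fun h2 => h (hmem.1 h2)),
      indicator_of_notMem (by exact h : r ∉ Iic R), mul_zero]

theorem ac_inner {F : ℝ → E n} {s t : ℝ} (h : AbsolutelyContinuousOnInterval F s t) (b : E n)
    {v : E n} (hv : ‖v‖ ≤ 1) :
    AbsolutelyContinuousOnInterval (fun r => ⟪F r - b, v⟫) s t := by
  unfold AbsolutelyContinuousOnInterval at *
  apply squeeze_zero (fun _ => Finset.sum_nonneg (fun i _ => dist_nonneg)) _ h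
  intro e
  apply Finset.sum_le_sum
  intro i _
  rw [Real.dist_eq, ← inner_sub_left, sub_sub_sub_cancel_right, dist_eq_norm]
  calc |⟪F (e.2 i).1 - F (e.2 i).2, v⟫| ≤ ‖F (e.2 i).1 - F (e.2 i).2‖ * ‖v‖ :=
        abs_real_inner_le_norm _ _
    _ ≤ ‖F (e.2 i).1 - F (e.2 i).2‖ * 1 := by gcongr
    _ = _ := mul_one _

/-- The bound on one ray, down to the centre. -/
theorem ray_bound (hn : 2 ≤ n) {κ : ℝ} (hκ : 0 < κ) {U : Set (E n)} {a b : E n}
    {Ψ f : E n → E n} (hΨ : Angular κ Ψ) (hf : RayMap U a b Ψ f) {R M Λ : ℝ} (hR : 0 < R) (hsub : closedBall a R ⊆ U)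
    (hM0 : 0 ≤ M) (hM : ∀ x ∈ closedBall a R, ‖f x - b‖ ≤ M) {α β s C : ℝ} (hα : 0 ≤ α)
    (hs : 0 ≤ s)
    (hC : ∀ t r G j J K : ℝ, 1 ≤ t → 0 < r → Real.exp (t - 1) = R / r →
      0 ≤ G → G * r ≤ M → 0 ≤ j → j ≤ Λ → 0 ≤ J → G ^ n * j ≤ K * J →
      α / n * G ^ n * j * t ^ (α - 1) ≤ s * (J * t ^ α) + C * Real.exp (κ * β * K))
    (ω : sphere (0 : E n) 1)
    (hac : ∀ s t : ℝ, 0 < s → s ≤ t → (∀ r ∈ Icc s t, a + r • (ω : E n) ∈ U) →
      AbsolutelyContinuousOnInterval (fun r : ℝ => f (a + r • (ω : E n))) s t)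
    (hfacts : ∀ᵐ r ∂(volume : Measure ℝ), 0 < r → a + r • (ω : E n) ∈ U →
      Facts κ a b Ψ f Λ (a + r • (ω : E n))) :
    ENNReal.ofReal (1 - s) * ∫⁻ r in Ioc 0 R, ENNReal.ofReal (r ^ (n - 1)) *
        ENNReal.ofReal (jac f (a + r • (ω : E n)) * tau R r ^ α) ≤
      ENNReal.ofReal (Λ * M ^ n / n) + ∫⁻ r in Ioc 0 R, ENNReal.ofReal (r ^ (n - 1)) *
        ENNReal.ofReal (C * Real.exp (β * distortion f (a + r • (ω : E n)))) := by
  have hω : ‖(ω : E n)‖ = 1 := by simp
  have hn0 : (0 : ℝ) < n := by exact_mod_cast (by omega : 0 < n)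
  have hΨω : ‖Ψ ω‖ = 1 := by rw [hΨ.norm_eq, hω]
  have hmem : ∀ r, 0 < r → r ≤ R → a + r • (ω : E n) ∈ closedBall a R := by
    intro r hr hrR
    rw [mem_closedBall, dist_eq_norm, add_sub_cancel_left, norm_smul, hω, mul_one,
      Real.norm_of_nonneg hr.le]
    exact hrR
  set ρ : ℝ → ℝ := fun r => ⟪f (a + r • (ω : E n)) - b, Ψ ω⟫ with hρ
  set j := jac Ψ ω with hj
  have hρ_eq : ∀ r, 0 < r → r ≤ R → ρ r = ‖f (a + r • (ω : E n)) - b‖ := by
    intro r hr hrR
    obtain ⟨c, hc0, hc⟩ := hf.ray _ (hsub (hmem r hr hrR))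
    rw [add_sub_cancel_left, hΨ.hom r ω hr.le] at hc
    simp only [hρ]
    rw [hc, add_sub_cancel_left, norm_smul, norm_smul, real_inner_smul_left, real_inner_smul_left,
      real_inner_self_eq_norm_sq, hΨω, Real.norm_of_nonneg hc0, Real.norm_of_nonneg hr.le]
    ring
  have hfacts' : ∀ᵐ r ∂(volume : Measure ℝ), 0 < r → r ≤ R →
      Facts κ a b Ψ f Λ (a + r • (ω : E n)) := by
    filter_upwards [hfacts] with r h hr hrR using h hr (hsub (hmem r hr hrR))
  have hjr : ∀ r : ℝ, 0 < r → jac Ψ (a + r • (ω : E n) - a) = j := by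
    intro r hr
    rw [add_sub_cancel_left, hΨ.jac_smul hr]
  obtain ⟨hj0, hjΛ⟩ : 0 ≤ j ∧ j ≤ Λ := by
    have h1 : ∃ r ∈ Ioo (0 : ℝ) R, Facts κ a b Ψ f Λ (a + r • (ω : E n)) := by
      by_contra hcon
      push Not at hcon
      have h2 : (volume : Measure ℝ) (Ioo (0 : ℝ) R) = 0 := by
        rw [ae_iff] at hfacts'
        apply measure_mono_null _ hfacts'
        intro r hr
        simp only [mem_ofPred_eq]
        intro h3
        exact hcon r hr (h3 hr.1 hr.2.le)
      rw [Real.volume_Ioo, ENNReal.ofReal_eq_zero] at h2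
      linarith
    obtain ⟨r, hr, h2⟩ := h1
    rw [← hjr r hr.1]
    exact ⟨h2.jang_nonneg, h2.jang_le⟩
  -- the inequality on `(ε, R]`
  have hstep : ∀ ε : ℝ, 0 < ε → ε ≤ R →
      ENNReal.ofReal (1 - s) * ∫⁻ r in Ioc ε R, ENNReal.ofReal (r ^ (n - 1)) *
        ENNReal.ofReal (jac f (a + r • (ω : E n)) * tau R r ^ α) ≤
      ENNReal.ofReal (Λ * M ^ n / n) + ∫⁻ r in Ioc 0 R, ENNReal.ofReal (r ^ (n - 1)) *
        ENNReal.ofReal (C * Real.exp (β * distortion f (a + r • (ω : E n)))) := by
    intro ε hε hεR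
    have hacρ : AbsolutelyContinuousOnInterval ρ ε R :=
      ac_inner (hac ε R hε hεR (fun r hr => hsub (hmem r (hε.trans_le hr.1) hr.2))) b hΨω.le
    have h := ray_ineq (n := n) (by omega) hε hεR hα hs hj0 (ρ := ρ)
      (J := fun r => jac f (a + r • (ω : E n)))
      (Ek := fun r => Real.exp (β * distortion f (a + r • (ω : E n)))) (C := C) (M := M) hacρ
      (fun r hr => by rw [hρ_eq r (hε.trans_le hr.1) hr.2]; positivity)
      (by rw [hρ_eq R hR le_rfl]; exact hM _ (hmem R hR le_rfl)) (by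
        filter_upwards [hfacts'] with r hr hrI
        have hr0 : 0 < r := hε.trans hrI.1
        have F := hr hr0 hrI.2
        have hxa : ‖a + r • (ω : E n) - a‖ = r := by
          rw [add_sub_cancel_left, norm_smul, hω, mul_one, Real.norm_of_nonneg hr0.le]
        have hG : ‖f (a + r • (ω : E n)) - b‖ / ‖a + r • (ω : E n) - a‖ = ρ r / r := by
          rw [hxa, hρ_eq r hr0 hrI.2]
        have hderiv : deriv ρ r = ⟪fderiv ℝ f (a + r • (ω : E n)) (a + r • (ω : E n) - a),
            Ψ (a + r • (ω : E n) - a)⟫ / ‖a + r • (ω : E n) - a‖ ^ 2 := by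
          have e1 : HasDerivAt (fun r : ℝ => a + r • (ω : E n)) (ω : E n) r := by
            simpa using ((hasDerivAt_id r).smul_const (ω : E n)).const_add a
          have e2 : HasDerivAt (fun r : ℝ => f (a + r • (ω : E n)) - b)
              (fderiv ℝ f (a + r • (ω : E n)) (ω : E n)) r :=
            (F.diff.hasFDerivAt.comp_hasDerivAt r e1).sub_const b
          have e3 := (e2.inner ℝ (hasDerivAt_const r (Ψ ω))).deriv
          simp only [inner_zero_right, zero_add] at e3
          rw [hρ, e3, hxa, add_sub_cancel_left, map_smul, hΨ.hom r ω hr0.le,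
            real_inner_smul_left, real_inner_smul_right]
          field_simp
        refine ⟨F.jac_nonneg, ?_, ?_⟩
        · rw [F.jac_eq, hG, ← hderiv, hjr r hr0, div_pow]
          field_simp
        · have h1 := hC (tau R r) r (ρ r / r) j (jac f (a + r • (ω : E n)))
            (distortion f (a + r • (ω : E n)) / κ) (one_le_tau hr0 hrI.2) hr0
            (by unfold tau; rw [add_sub_cancel_left, Real.exp_log (by positivity)])
            (by rw [← hG]; positivity)
            (by
              rw [div_mul_cancel₀ _ hr0.ne', hρ_eq r hr0 hrI.2]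
              exact hM _ (hmem r hr0 hrI.2))
            hj0 hjΛ F.jac_nonneg
            (by
              rw [← hG, ← hjr r hr0, div_mul_eq_mul_div, le_div_iff₀ hκ, mul_comm _ κ]
              exact F.ang_le)
          have h2 : κ * β * (distortion f (a + r • (ω : E n)) / κ) =
              β * distortion f (a + r • (ω : E n)) := by field_simp
          rw [h2] at h1
          exact h1)
    have e1 : ∫⁻ r in Ioc ε R, ENNReal.ofReal (r ^ (n - 1)) *
        ENNReal.ofReal (jac f (a + r • (ω : E n)) * tau R r ^ α) =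
        ∫⁻ r in Ioc ε R, ENNReal.ofReal (r ^ (n - 1) *
          (jac f (a + r • (ω : E n)) * tau R r ^ α)) := by
      apply setLIntegral_congr_fun measurableSet_Ioc
      intro r hr
      have hr0 : 0 < r := hε.trans hr.1
      exact (ENNReal.ofReal_mul (by positivity)).symm
    have e2 : ∫⁻ r in Ioc ε R, ENNReal.ofReal (r ^ (n - 1) *
        (C * Real.exp (β * distortion f (a + r • (ω : E n))))) ≤
        ∫⁻ r in Ioc 0 R, ENNReal.ofReal (r ^ (n - 1)) *
        ENNReal.ofReal (C * Real.exp (β * distortion f (a + r • (ω : E n)))) := by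
      calc _ = ∫⁻ r in Ioc ε R, ENNReal.ofReal (r ^ (n - 1)) *
            ENNReal.ofReal (C * Real.exp (β * distortion f (a + r • (ω : E n)))) := by
            apply setLIntegral_congr_fun measurableSet_Ioc
            intro r hr
            have hr0 : 0 < r := hε.trans hr.1
            exact ENNReal.ofReal_mul (by positivity)
        _ ≤ _ := lintegral_mono_set (Ioc_subset_Ioc_left hε.le)
    rw [e1]
    refine h.trans (add_le_add ?_ e2)
    apply ENNReal.ofReal_le_ofReal
    gcongr
  -- exhaustion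
  have hunion : Ioc (0 : ℝ) R = ⋃ k : ℕ, Ioc (R / (k + 1)) R := by
    ext r
    simp only [mem_Ioc, mem_iUnion]
    constructor
    · rintro ⟨h0, hr⟩
      obtain ⟨k, hk⟩ := exists_nat_gt (R / r)
      refine ⟨k, ?_, hr⟩
      rw [div_lt_iff₀ h0] at hk
      rw [div_lt_iff₀ (by positivity)]
      nlinarith
    · rintro ⟨k, h0, hr⟩
      exact ⟨lt_trans (by positivity) h0, hr⟩
  have hdir : Directed (· ⊆ ·) (fun k : ℕ => Ioc (R / (k + 1)) R) := by
    apply Monotone.directed_le
    intro k l hkl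
    apply Ioc_subset_Ioc_left
    have : (k : ℝ) ≤ l := by exact_mod_cast hkl
    gcongr
  rw [hunion, setLIntegral_iUnion_of_directed _ hdir, ← hunion, ENNReal.mul_iSup]
  apply iSup_le
  intro k
  exact hstep _ (by positivity) (by
    rw [div_le_iff₀ (by positivity)]
    nlinarith [(Nat.cast_nonneg k : (0 : ℝ) ≤ k)])

/-- **The estimate at the centre.** -/
theorem center_lt_top (hn : 2 ≤ n) {κ : ℝ} (hκ : 0 < κ) {U : Set (E n)} {a b : E n}
    {Ψ f : E n → E n} (hΨ : Angular κ Ψ) (hf : RayMap U a b Ψ f) {Λ : ℝ} (hΛ : 0 ≤ Λ)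
    (hF : ∀ᵐ x ∂(volume : Measure (E n)), x ∈ U → Facts κ a b Ψ f Λ x)
    {R : ℝ} (hR : 0 < R) (hsub : closedBall a R ⊆ U) {α β : ℝ} (hα : 0 < α)
    (hαβ : α < κ * β) (hexp : IntegrableOn (fun x => Real.exp (β * distortion f x)) (closedBall a R)) :
    ∫⁻ x in closedBall a R, ENNReal.ofReal (jac f x * tau R ‖x - a‖ ^ α) < ⊤ := by
  have hβ : 0 < κ * β := hα.trans hαβ
  obtain ⟨M₀, hM₀⟩ := (isCompact_closedBall a R).exists_bound_of_continuousOn
    ((hf.cont.mono hsub).sub continuousOn_const (g := fun _ => b))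
  set M := max M₀ 0 with hMdef
  have hM0 : 0 ≤ M := le_max_right _ _
  have hM : ∀ x ∈ closedBall a R, ‖f x - b‖ ≤ M := fun x hx => (hM₀ x hx).trans (le_max_left _ _)
  set s := (α / (κ * β) + 1) / 2 with hs
  have hαβ' : α / (κ * β) < 1 := by rw [div_lt_one hβ]; exact hαβ
  have hs1 : s < 1 := by rw [hs]; linarith
  have hs0 : 0 ≤ s := by positivity
  have hsβ : α < s * (κ * β) := by
    have h1 : α / (κ * β) < s := by rw [hs]; linarith
    rwa [div_lt_iff₀ hβ] at h1
  obtain ⟨C, hC0, hC⟩ := absorb (n := n) (by omega) hα hβ hsβ hR hM0 hΛ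
  have hmJ : Measurable (fun x : E n => ENNReal.ofReal (jac f x * tau R ‖x - a‖ ^ α)) := by
    have h1 : Measurable (fun x : E n => tau R ‖x - a‖) := by
      unfold tau
      fun_prop
    exact ((measurable_jac f).mul (h1.pow_const α)).ennreal_ofReal
  have hmE : Measurable (fun x : E n => ENNReal.ofReal (C * Real.exp (β * distortion f x))) :=
    ((((measurable_distortion f).const_mul β).exp).const_mul C).ennreal_ofReal
  have hexpfin : ∫⁻ x in closedBall a R, ENNReal.ofReal (C * Real.exp (β * distortion f x)) <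
      ⊤ := by
    have h1 := (hexp.const_mul C).2
    rw [hasFiniteIntegral_iff_ofReal] at h1
    · exact h1
    · filter_upwards with x
      positivity
  have h1s : 0 < 1 - s := by linarith
  have hpolar_ae := polar_ae (n := n) (P := fun y => a + y ∈ U → Facts κ a b Ψ f Λ (a + y)) (by
    have hq : Measure.QuasiMeasurePreserving (fun y : E n => a + y) volume volume :=
      (measurePreserving_add_left volume a).quasiMeasurePreserving
    exact hq.ae hF)
  have hkey : ENNReal.ofReal (1 - s) *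
      ∫⁻ x in closedBall a R, ENNReal.ofReal (jac f x * tau R ‖x - a‖ ^ α) ≤
      ENNReal.ofReal (Λ * M ^ n / n) * (volume : Measure (E n)).toSphere univ +
      ∫⁻ x in closedBall a R, ENNReal.ofReal (C * Real.exp (β * distortion f x)) := by
    rw [polar_ball hn a R _ hmJ, polar_ball hn a R _ hmE]
    refine (lintegral_const_mul_le _ _).trans ?_
    have h2 : ENNReal.ofReal (Λ * M ^ n / n) * (volume : Measure (E n)).toSphere univ =
        ∫⁻ _ω : sphere (0 : E n) 1, ENNReal.ofReal (Λ * M ^ n / n)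
          ∂(volume : Measure (E n)).toSphere := by
      rw [lintegral_const]
    rw [h2, ← lintegral_add_left measurable_const]
    apply lintegral_mono_ae
    filter_upwards [hf.ac, hpolar_ae] with ω hω1 hω2
    have h3 := ray_bound hn hκ hΨ hf hR hsub hM0 hM hα.le hs0 hC ω hω1 (by
      filter_upwards [hω2] with r hr hr0 hrU using hr hr0 hrU)
    refine le_trans (le_of_eq ?_) h3
    congr 1
    apply setLIntegral_congr_fun measurableSet_Ioc
    intro r hr
    have hω : ‖(ω : E n)‖ = 1 := by simp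
    simp only [add_sub_cancel_left, norm_smul, hω, mul_one, Real.norm_of_nonneg hr.1.le]
  by_contra hcon
  have htop : ∫⁻ x in closedBall a R, ENNReal.ofReal (jac f x * tau R ‖x - a‖ ^ α) = ⊤ :=
    not_lt_top_iff.1 hcon
  rw [htop, ENNReal.mul_top (by simpa using hs1), top_le_iff, ENNReal.add_eq_top] at hkey
  rcases hkey with h | h
  · exact (ENNReal.mul_lt_top ENNReal.ofReal_lt_top (measure_lt_top _ _)).ne h
  · exact hexpfin.ne h

end Pool.Agent.RayM
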