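import Mathlib

/-!
# Ray maps: definitions (MP_92012e_an)
-/

namespace Pool.Agent.RayM

open MeasureTheory Set
open scoped RealInnerProductSpace

/-- Euclidean `n`-space. -/
abbrev E (n : ℕ) := EuclideanSpace ℝ (Fin n)

/-- The Jacobian `J_f(x) = det Df(x)` of the pointwise derivative. -/
noncomputable def jac {n : ℕ} (f : E n → E n) (x : E n) : ℝ := (fderiv ℝ f x).det

/-- The distortion function: `|Df(x)|^n / J_f(x)` where `J_f(x) > 0`, and `1` otherwise. -/
noncomputable def distortion {n : ℕ} (f : E n → E n) (x : E n) : ℝ :=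
  if 0 < jac f x then ‖fderiv ℝ f x‖ ^ n / jac f x else 1

/-- An angular map `Ψ` with constant `κ`: it is positively homogeneous of degree one, keeps the
norm (so `Ψ x = |x| Φ(x / |x|)` for a map `Φ` of the unit sphere to itself), is Lipschitz, and at
almost every point `x` its Jacobian is nonnegative and some unit vector `h` orthogonal to `x` has
`κ J_Ψ(x) ≤ |DΨ(x) h|^n`. The identity has `κ = 1`. -/
structure Angular {n : ℕ} (κ : ℝ) (Ψ : E n → E n) : Prop where
  hom : ∀ (r : ℝ) (x : E n), 0 ≤ r → Ψ (r • x) = r • Ψ x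
  norm_eq : ∀ x, ‖Ψ x‖ = ‖x‖
  lip : ∃ L, LipschitzWith L Ψ
  spread : ∀ᵐ x ∂(volume : Measure (E n)), 0 ≤ jac Ψ x ∧
    ∃ h : E n, ‖h‖ = 1 ∧ ⟪h, x⟫ = 0 ∧ κ * jac Ψ x ≤ ‖fderiv ℝ Ψ x h‖ ^ n

/-- An angular map whose distortion is (almost everywhere at most, hence) equal to `κ`. -/
structure ExactAngular {n : ℕ} (κ : ℝ) (Ψ : E n → E n) : Prop extends Angular κ Ψ where
  exact : ∀ᵐ x ∂(volume : Measure (E n)), ‖fderiv ℝ Ψ x‖ ^ n ≤ κ * jac Ψ x

/-- `f` is a ray map on `U` with centres `a`, `b` and angular part `Ψ`: it is continuous on `U`,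
it sends the ray from `a` in direction `ω` into the ray from `b` in direction `Ψ ω`, it is
absolutely continuous on the compact segments in `U` of almost every ray from `a`, and almost
everywhere in `U` it is differentiable with nonnegative Jacobian and `Df = 0` where the Jacobian
vanishes. -/
structure RayMap {n : ℕ} (U : Set (E n)) (a b : E n) (Ψ f : E n → E n) : Prop where
  cont : ContinuousOn f U
  ray : ∀ x ∈ U, ∃ c : ℝ, 0 ≤ c ∧ f x = b + c • Ψ (x - a)
  ac : ∀ᵐ ω : Metric.sphere (0 : E n) 1 ∂(volume : Measure (E n)).toSphere,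
    ∀ s t : ℝ, 0 < s → s ≤ t →
    (∀ r ∈ Icc s t, a + r • (ω : E n) ∈ U) →
    AbsolutelyContinuousOnInterval (fun r : ℝ => f (a + r • (ω : E n))) s t
  diff : ∀ᵐ x ∂((volume : Measure (E n)).restrict U), DifferentiableAt ℝ f x ∧ 0 ≤ jac f x ∧
    (jac f x = 0 → fderiv ℝ f x = 0)

/-- The conclusion for one map: `J_f log^α(e + J_f)` and `|Df|^n log^(α-1)(e + |Df|)` are locally
integrable on `Ω`. -/
def Regular {n : ℕ} (α : ℝ) (Ω : Set (E n)) (f : E n → E n) : Prop :=
  LocallyIntegrableOn (fun x => jac f x * Real.log (Real.exp 1 + jac f x) ^ α) Ω ∧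
  LocallyIntegrableOn
    (fun x => ‖fderiv ℝ f x‖ ^ n * Real.log (Real.exp 1 + ‖fderiv ℝ f x‖) ^ (α - 1)) Ω

/-- `f` is locally, near every point of `Ω`, a ray map whose angular part has constant `κ` (centres
and angular part may depend on the point). -/
def LocallyRay {n : ℕ} (κ : ℝ) (Ω : Set (E n)) (f : E n → E n) : Prop :=
  ∀ x ∈ Ω, ∃ (U : Set (E n)) (a b : E n) (Ψ : E n → E n),
    IsOpen U ∧ x ∈ U ∧ U ⊆ Ω ∧ Angular κ Ψ ∧ RayMap U a b Ψ f

/-- For all maps that are locally ray maps with constant `κ` on some set, local exponential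
integrability of `β K_f` implies the conclusion with the exponent `α`. -/
def Admissible (n : ℕ) (κ α β : ℝ) : Prop :=
  ∀ (Ω : Set (E n)) (f : E n → E n), LocallyRay κ Ω f →
    LocallyIntegrableOn (fun x => Real.exp (β * distortion f x)) Ω → Regular α Ω f

end Pool.Agent.RayM
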