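import Pool.Agent.RayM.Pt

/-!
# The radial example: derivative, Jacobian and distortion
-/

namespace Pool.Agent.RayM

open MeasureTheory Set Metric
open scoped RealInnerProductSpace

variable {n : ℕ}

/-- The radial profile `(√(log (1/r)) - 1)^(-2β/n)`. -/
noncomputable def phi (n : ℕ) (β r : ℝ) : ℝ := (√(-Real.log r) - 1) ^ (-(2 * β / n))

/-- The stretching with radial profile `phi` and angular part `Ψ`. -/
noncomputable def exG (n : ℕ) (β : ℝ) (Ψ : E n → E n) (x : E n) : E n :=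
  (phi n β ‖x‖ / ‖x‖) • Ψ x

/-- The distortion bound of the example. -/
noncomputable def kk (n : ℕ) (β r : ℝ) : ℝ := n / β * (-Real.log r - √(-Real.log r))

theorem t_facts {β r : ℝ} (hβ : 0 < β) (hr : 0 < r) (hrR : r < Real.exp (-(4 + 2 * β))) :
    4 + 2 * β < -Real.log r ∧ 2 < √(-Real.log r) ∧ √(-Real.log r) ≤ -Real.log r / 2 := by
  have h1 : Real.log r < -(4 + 2 * β) := by
    rw [Real.log_lt_iff_lt_exp hr]; exact hrR
  have h2 : 4 + 2 * β < -Real.log r := by linarith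
  have h3 : 2 < √(-Real.log r) := by
    rw [show (2 : ℝ) = √4 by
      rw [show (4 : ℝ) = 2 ^ 2 by norm_num, Real.sqrt_sq (by norm_num)]]
    exact Real.sqrt_lt_sqrt (by norm_num) (by linarith)
  refine ⟨h2, h3, ?_⟩
  have h4 : √(-Real.log r) * √(-Real.log r) = -Real.log r := Real.mul_self_sqrt (by linarith)
  nlinarith

theorem phi_pos {β r : ℝ} (h : 2 < √(-Real.log r)) : 0 < phi n β r := by
  unfold phi
  have : 0 < √(-Real.log r) - 1 := by linarith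
  positivity

theorem hasDerivAt_phi (hn : 2 ≤ n) {β r : ℝ} (hβ : 0 < β) (hr : 0 < r)
    (hrR : r < Real.exp (-(4 + 2 * β))) :
    HasDerivAt (phi n β) (phi n β r / r / kk n β r) r := by
  obtain ⟨ht, hs, hs2⟩ := t_facts hβ hr hrR
  have hn0 : (0 : ℝ) < n := by exact_mod_cast (by omega : 0 < n)
  have hsq : √(-Real.log r) * √(-Real.log r) = -Real.log r := Real.mul_self_sqrt (by linarith)
  have h1 : HasDerivAt (fun r => -Real.log r) (-(r⁻¹)) r := (Real.hasDerivAt_log hr.ne').neg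
  have h2 : HasDerivAt (fun r => √(-Real.log r)) (-(r⁻¹) / (2 * √(-Real.log r))) r :=
    h1.sqrt (by linarith)
  have hne : √(-Real.log r) - 1 ≠ 0 := by linarith
  have h3 := (h2.sub_const 1).rpow_const (p := -(2 * β / n)) (Or.inl hne)
  unfold phi
  convert h3 using 1
  rw [Real.rpow_sub_one hne]
  unfold kk
  have e1 : -Real.log r - √(-Real.log r) = √(-Real.log r) * (√(-Real.log r) - 1) := by
    rw [mul_sub, hsq]; ring
  rw [e1]
  have hs0 : √(-Real.log r) ≠ 0 := by linarith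
  field_simp

theorem one_le_kk (hn : 2 ≤ n) {β r : ℝ} (hβ : 0 < β) (hr : 0 < r)
    (hrR : r < Real.exp (-(4 + 2 * β))) : 1 ≤ kk n β r := by
  obtain ⟨ht, hs, hs2⟩ := t_facts hβ hr hrR
  have hn0 : (2 : ℝ) ≤ n := by exact_mod_cast hn
  unfold kk
  rw [div_mul_eq_mul_div, le_div_iff₀ hβ]
  nlinarith

/-- The derivative of the stretching with `Ψ = id`. -/
noncomputable def exA (n : ℕ) (β : ℝ) (x : E n) : E n →L[ℝ] E n :=
  (phi n β ‖x‖ / ‖x‖) • ContinuousLinearMap.id ℝ (E n) +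
      (((phi n β ‖x‖ / ‖x‖ / kk n β ‖x‖ - phi n β ‖x‖ / ‖x‖) / ‖x‖ ^ 2) •
        innerSL ℝ x).smulRight x

/-- The derivative of the scalar factor. -/
theorem hasFDerivAt_scal (hn : 2 ≤ n) {β : ℝ} (hβ : 0 < β) {x : E n} (hx : x ≠ 0)
    (hxR : ‖x‖ < Real.exp (-(4 + 2 * β))) :
    HasFDerivAt (fun z : E n => phi n β ‖z‖ / ‖z‖)
      (((phi n β ‖x‖ / ‖x‖ / kk n β ‖x‖ - phi n β ‖x‖ / ‖x‖) / ‖x‖ ^ 2) • innerSL ℝ x) x := by
  have hr : 0 < ‖x‖ := norm_pos_iff.2 hx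
  set r := ‖x‖ with hrdef
  have h1 := hasDerivAt_phi hn hβ hr hxR
  have h2 : HasDerivAt (fun r => phi n β r / r)
      ((phi n β r / r / kk n β r * r - phi n β r * 1) / r ^ 2) r := h1.div (hasDerivAt_id r) hr.ne'
  have hsqrt : √(r ^ 2) = r := Real.sqrt_sq hr.le
  have h3 : HasDerivAt (fun s : ℝ => √s) (1 / (2 * √(r ^ 2))) (r ^ 2) :=
    Real.hasDerivAt_sqrt (by positivity)
  have h2' : HasDerivAt (fun r => phi n β r / r)
      ((phi n β r / r / kk n β r * r - phi n β r * 1) / r ^ 2) (√(r ^ 2)) := by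
    rw [hsqrt]; exact h2
  have h4 := HasDerivAt.comp (r ^ 2) h2' h3
  have h5 : HasFDerivAt (fun z : E n => ‖z‖ ^ 2) (2 • innerSL ℝ x) x :=
    (hasStrictFDerivAt_norm_sq x).hasFDerivAt
  have h6 := h4.comp_hasFDerivAt x (f := fun z : E n => ‖z‖ ^ 2) h5
  have e1 : ((fun r => phi n β r / r) ∘ fun s : ℝ => √s) ∘ (fun z : E n => ‖z‖ ^ 2) =
      fun z : E n => phi n β ‖z‖ / ‖z‖ := by
    ext1 z
    simp only [Function.comp]
    rw [Real.sqrt_sq (norm_nonneg z)]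
  rw [e1, hsqrt] at h6
  have e2 : ((phi n β r / r / kk n β r - phi n β r / r) / r ^ 2) • innerSL ℝ x =
      ((phi n β r / r / kk n β r * r - phi n β r * 1) / r ^ 2 * (1 / (2 * r))) •
        (2 • innerSL ℝ x) := by
    rw [← Nat.cast_smul_eq_nsmul ℝ, smul_smul]
    congr 1
    push_cast
    field_simp
  rw [e2]
  exact h6

theorem det_exA (hn : 2 ≤ n) (β : ℝ) {x : E n} (hx : x ≠ 0) :
    (exA n β x).det = (phi n β ‖x‖ / ‖x‖) ^ n / kk n β ‖x‖ := by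
  have hr : 0 < ‖x‖ := norm_pos_iff.2 hx
  unfold exA
  rw [det_scalar_rank hn]
  simp only [smul_apply, innerSL_apply_apply, real_inner_self_eq_norm_sq,
    smul_eq_mul]
  have e1 : (phi n β ‖x‖ / ‖x‖ / kk n β ‖x‖ - phi n β ‖x‖ / ‖x‖) / ‖x‖ ^ 2 * ‖x‖ ^ 2 =
      phi n β ‖x‖ / ‖x‖ / kk n β ‖x‖ - phi n β ‖x‖ / ‖x‖ := by field_simp
  rw [e1]
  obtain ⟨m, rfl⟩ : ∃ m, n = m + 1 := ⟨n - 1, by omega⟩
  rw [Nat.add_sub_cancel, pow_succ]
  ring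

theorem norm_exA_le (hn : 2 ≤ n) {β : ℝ} (hβ : 0 < β) {x : E n} (hx : x ≠ 0)
    (hxR : ‖x‖ < Real.exp (-(4 + 2 * β))) :
    ‖exA n β x‖ ≤ phi n β ‖x‖ / ‖x‖ := by
  have hr : 0 < ‖x‖ := norm_pos_iff.2 hx
  obtain ⟨ht, hs, hs2⟩ := t_facts hβ hr hxR
  have hphi := phi_pos (n := n) (β := β) hs
  have hk := one_le_kk hn hβ hr hxR
  unfold exA
  set h := phi n β ‖x‖ / ‖x‖ with hh
  have hh0 : 0 < h := by positivity
  set k := kk n β ‖x‖ with hkdef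
  have hk0 : 0 < k := by linarith
  have hhk : h / k ≤ h := div_le_self hh0.le hk
  have hhk0 : 0 < h / k := by positivity
  apply ContinuousLinearMap.opNorm_le_bound _ hh0.le
  intro v
  set q := (h / k - h) / ‖x‖ ^ 2 with hq
  have hq0 : q ≤ 0 := by
    apply div_nonpos_of_nonpos_of_nonneg (by linarith) (by positivity)
  have hqx : q * ‖x‖ ^ 2 = h / k - h := by rw [hq]; field_simp
  simp only [add_apply, smul_apply, ContinuousLinearMap.smulRight_apply, innerSL_apply_apply,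
    ContinuousLinearMap.id_apply, smul_eq_mul]
  have e1 : ‖h • v + (q * ⟪x, v⟫) • x‖ ^ 2 ≤ (h * ‖v‖) ^ 2 := by
    rw [norm_add_sq_real, norm_smul, norm_smul, real_inner_smul_left, real_inner_smul_right,
      real_inner_comm x v, mul_pow, mul_pow, Real.norm_eq_abs, Real.norm_eq_abs, sq_abs, sq_abs]
    have e2 : (q * ⟪x, v⟫) ^ 2 * ‖x‖ ^ 2 = q * ⟪x, v⟫ ^ 2 * (q * ‖x‖ ^ 2) := by ring
    rw [e2, hqx]
    have e3 : 0 ≤ -q * ⟪x, v⟫ ^ 2 * (h + h / k) := by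
      have : 0 ≤ -q := by linarith
      positivity
    nlinarith
  exact le_of_sq_le_sq e1 (by positivity)

/-- The derivative of the example off the origin. -/
theorem hasFDerivAt_exG (hn : 2 ≤ n) {κ : ℝ} {Ψ : E n → E n} (hΨ : Angular κ Ψ) {β : ℝ}
    (hβ : 0 < β) {x : E n} (hx : x ≠ 0) (hxR : ‖x‖ < Real.exp (-(4 + 2 * β)))
    (hd : DifferentiableAt ℝ Ψ x) :
    HasFDerivAt (exG n β Ψ) ((fderiv ℝ Ψ x).comp (exA n β x)) x := by
  have h1 := (hasFDerivAt_scal hn hβ hx hxR).smul hd.hasFDerivAt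
  have h2 : (fderiv ℝ Ψ x).comp (exA n β x) = (phi n β ‖x‖ / ‖x‖) • fderiv ℝ Ψ x +
      (((phi n β ‖x‖ / ‖x‖ / kk n β ‖x‖ - phi n β ‖x‖ / ‖x‖) / ‖x‖ ^ 2) •
        innerSL ℝ x).smulRight (Ψ x) := by
    ext1 v
    unfold exA
    simp [hΨ.euler hd]
  rw [h2]
  exact h1

theorem jac_exG (hn : 2 ≤ n) {κ : ℝ} {Ψ : E n → E n} (hΨ : Angular κ Ψ) {β : ℝ}
    (hβ : 0 < β) {x : E n} (hx : x ≠ 0) (hxR : ‖x‖ < Real.exp (-(4 + 2 * β)))
    (hd : DifferentiableAt ℝ Ψ x) :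
    jac (exG n β Ψ) x = jac Ψ x * ((phi n β ‖x‖ / ‖x‖) ^ n / kk n β ‖x‖) := by
  unfold jac
  rw [(hasFDerivAt_exG hn hΨ hβ hx hxR hd).fderiv, ← det_exA hn β hx]
  unfold ContinuousLinearMap.det
  rw [ContinuousLinearMap.toLinearMap_comp, LinearMap.det_comp]

theorem norm_fderiv_exG_le (hn : 2 ≤ n) {κ : ℝ} {Ψ : E n → E n} (hΨ : Angular κ Ψ) {β : ℝ}
    (hβ : 0 < β) {x : E n} (hx : x ≠ 0) (hxR : ‖x‖ < Real.exp (-(4 + 2 * β)))
    (hd : DifferentiableAt ℝ Ψ x) :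
    ‖fderiv ℝ (exG n β Ψ) x‖ ≤ ‖fderiv ℝ Ψ x‖ * (phi n β ‖x‖ / ‖x‖) := by
  rw [(hasFDerivAt_exG hn hΨ hβ hx hxR hd).fderiv]
  refine (ContinuousLinearMap.opNorm_comp_le _ _).trans ?_
  have := norm_exA_le hn hβ hx hxR
  gcongr

/-- The Jacobian of an exact angular map is at least `1 / κ`. -/
theorem inv_le_jac {κ : ℝ} (hκ : 0 < κ) {Ψ : E n → E n} (hΨ : Angular κ Ψ) {x : E n}
    (hx : x ≠ 0) (hd : DifferentiableAt ℝ Ψ x) (he : ‖fderiv ℝ Ψ x‖ ^ n ≤ κ * jac Ψ x) :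
    1 / κ ≤ jac Ψ x := by
  have hr : 0 < ‖x‖ := norm_pos_iff.2 hx
  have h1 : 1 ≤ ‖fderiv ℝ Ψ x‖ := by
    have h2 := (fderiv ℝ Ψ x).le_opNorm x
    rw [hΨ.euler hd, hΨ.norm_eq] at h2
    have h3 : 1 * ‖x‖ ≤ ‖fderiv ℝ Ψ x‖ * ‖x‖ := by linarith
    exact le_of_mul_le_mul_right h3 hr
  have h2 : 1 ≤ ‖fderiv ℝ Ψ x‖ ^ n := one_le_pow₀ h1
  rw [div_le_iff₀ hκ, mul_comm]
  linarith

theorem distortion_exG_le (hn : 2 ≤ n) {κ : ℝ} (hκ : 0 < κ) {Ψ : E n → E n} (hΨ : Angular κ Ψ)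
    {β : ℝ} (hβ : 0 < β) {x : E n} (hx : x ≠ 0) (hxR : ‖x‖ < Real.exp (-(4 + 2 * β)))
    (hd : DifferentiableAt ℝ Ψ x) (he : ‖fderiv ℝ Ψ x‖ ^ n ≤ κ * jac Ψ x) :
    distortion (exG n β Ψ) x ≤ κ * kk n β ‖x‖ := by
  have hr : 0 < ‖x‖ := norm_pos_iff.2 hx
  obtain ⟨ht, hs, hs2⟩ := t_facts hβ hr hxR
  have hphi := phi_pos (n := n) (β := β) hs
  have hk := one_le_kk hn hβ hr hxR
  have hk0 : 0 < kk n β ‖x‖ := by linarith
  have hn' := norm_fderiv_exG_le hn hΨ hβ hx hxR hd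
  have hj := inv_le_jac hκ hΨ hx hd he
  have hj0 : 0 < jac Ψ x := lt_of_lt_of_le (by positivity) hj
  unfold distortion
  rw [jac_exG hn hΨ hβ hx hxR hd]
  rw [if_pos (by positivity)]
  rw [div_le_iff₀ (by positivity)]
  calc ‖fderiv ℝ (exG n β Ψ) x‖ ^ n ≤ (‖fderiv ℝ Ψ x‖ * (phi n β ‖x‖ / ‖x‖)) ^ n := by gcongr
    _ = ‖fderiv ℝ Ψ x‖ ^ n * (phi n β ‖x‖ / ‖x‖) ^ n := mul_pow _ _ _
    _ ≤ (κ * jac Ψ x) * (phi n β ‖x‖ / ‖x‖) ^ n := by gcongr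
    _ = _ := by field_simp

end Pool.Agent.RayM
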