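import Pool.Agent.RayM.Ex1
import Pool.Agent.RayM.Real

/-!
# The radial example: it is a ray map
-/

namespace Pool.Agent.RayM

open MeasureTheory Set Metric Filter
open scoped RealInnerProductSpace Topology

variable {n : ℕ}

theorem nontrivial_E' (hn : 2 ≤ n) : Nontrivial (E n) := by
  have : Nonempty (Fin n) := ⟨⟨0, by omega⟩⟩
  infer_instance

theorem angular_id (hn : 2 ≤ n) : Angular 1 (fun x : E n => x) where
  hom := fun _ _ _ => rfl
  norm_eq := fun _ => rfl
  lip := ⟨1, LipschitzWith.id⟩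
  spread := by
    filter_upwards with x
    have h1 : fderiv ℝ (fun x : E n => x) x = ContinuousLinearMap.id ℝ (E n) := fderiv_fun_id
    have h2 : jac (fun x : E n => x) x = 1 := by
      unfold jac
      rw [h1]
      unfold ContinuousLinearMap.det
      simp
    constructor
    · rw [h2]; exact zero_le_one
    · obtain ⟨h, hne, hL⟩ := exists_ker hn (innerSL ℝ x)
      have hpos : 0 < ‖h‖ := norm_pos_iff.2 hne
      refine ⟨‖h‖⁻¹ • h, ?_, ?_, ?_⟩
      · rw [norm_smul, norm_inv, norm_norm, inv_mul_cancel₀ hpos.ne']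
      · rw [real_inner_smul_left, real_inner_comm]
        simp only [innerSL_apply_apply] at hL
        rw [hL, mul_zero]
      · rw [h2, h1, ContinuousLinearMap.id_apply, norm_smul, norm_inv, norm_norm,
          inv_mul_cancel₀ hpos.ne', one_pow, mul_one]

theorem exactAngular_id (hn : 2 ≤ n) : ExactAngular 1 (fun x : E n => x) where
  toAngular := angular_id hn
  exact := by
    filter_upwards with x
    have h1 : fderiv ℝ (fun x : E n => x) x = ContinuousLinearMap.id ℝ (E n) := fderiv_fun_id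
    have h2 : jac (fun x : E n => x) x = 1 := by
      unfold jac
      rw [h1]
      unfold ContinuousLinearMap.det
      simp
    rw [h2, h1, mul_one]
    exact pow_le_one₀ (norm_nonneg _) ContinuousLinearMap.norm_id_le

theorem tendsto_phi (hn : 2 ≤ n) {β : ℝ} (hβ : 0 < β) :
    Tendsto (phi n β) (𝓝[>] 0) (𝓝 0) := by
  have hn0 : (0 : ℝ) < n := by exact_mod_cast (by omega : 0 < n)
  have h1 : Tendsto (fun r : ℝ => √(-Real.log r) - 1) (𝓝[>] 0) atTop := by
    have h2 : Tendsto (fun r : ℝ => -Real.log r) (𝓝[>] 0) atTop :=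
      tendsto_neg_atBot_atTop.comp Real.tendsto_log_nhdsGT_zero
    exact tendsto_atTop_add_const_right _ _ (Real.tendsto_sqrt_atTop.comp h2)
  exact (tendsto_rpow_neg_atTop (y := 2 * β / n) (by positivity)).comp h1

theorem norm_exG {κ : ℝ} {Ψ : E n → E n} (hΨ : Angular κ Ψ) {β : ℝ} {x : E n} (hx : x ≠ 0)
    (h : 0 ≤ phi n β ‖x‖) : ‖exG n β Ψ x‖ = phi n β ‖x‖ := by
  have hr : 0 < ‖x‖ := norm_pos_iff.2 hx
  unfold exG
  rw [norm_smul, Real.norm_of_nonneg (by positivity), hΨ.norm_eq]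
  field_simp

theorem continuousOn_exG (hn : 2 ≤ n) {κ : ℝ} {Ψ : E n → E n} (hΨ : Angular κ Ψ) {β : ℝ}
    (hβ : 0 < β) : ContinuousOn (exG n β Ψ) (ball 0 (Real.exp (-(4 + 2 * β)))) := by
  intro x hx
  rw [mem_ball_zero_iff] at hx
  by_cases h0 : x = 0
  · subst h0
    apply ContinuousAt.continuousWithinAt
    unfold ContinuousAt
    have hf0 : exG n β Ψ (0 : E n) = 0 := by unfold exG; simp
    rw [hf0, tendsto_zero_iff_norm_tendsto_zero]
    have h1 : Tendsto (fun x : E n => ‖x‖) (𝓝[≠] 0) (𝓝[>] 0) :=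
      tendsto_norm_nhdsNE_zero
    have h2 : Tendsto (fun x : E n => ‖exG n β Ψ x‖) (𝓝[≠] 0) (𝓝 0) := by
      have h3 := (tendsto_phi hn hβ).comp h1
      apply h3.congr'
      have h4 : ∀ᶠ x : E n in 𝓝[≠] 0, ‖x‖ < Real.exp (-(4 + 2 * β)) := by
        apply mem_nhdsWithin_of_mem_nhds
        filter_upwards [ball_mem_nhds (0 : E n) (Real.exp_pos (-(4 + 2 * β)))] with z hz
        simpa using hz
      filter_upwards [h4, self_mem_nhdsWithin] with z hz hz0
      have hr : 0 < ‖z‖ := norm_pos_iff.2 hz0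
      obtain ⟨_, hs, _⟩ := t_facts hβ hr hz
      exact (norm_exG hΨ hz0 (phi_pos hs).le).symm
    rw [← nhdsNE_sup_pure, tendsto_sup]
    refine ⟨h2, ?_⟩
    rw [tendsto_pure_left]
    intro s hs
    rw [hf0, norm_zero]
    exact mem_of_mem_nhds hs
  · obtain ⟨L, hL⟩ := hΨ.lip
    have h1 : ContinuousAt (exG n β Ψ) x :=
      (hasFDerivAt_scal hn hβ h0 hx).continuousAt.smul hL.continuous.continuousAt
    exact h1.continuousWithinAt

theorem contDiffOn_phi {β : ℝ} (hβ : 0 < β) :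
    ContDiffOn ℝ 1 (phi n β) (Ioo 0 (Real.exp (-(4 + 2 * β)))) := by
  have h1 : ContDiffOn ℝ 1 (fun r : ℝ => -Real.log r) (Ioo 0 (Real.exp (-(4 + 2 * β)))) := by
    apply ContDiffOn.neg
    exact contDiffOn_id.log (fun r hr => hr.1.ne')
  have h2 : ContDiffOn ℝ 1 (fun r : ℝ => √(-Real.log r))
      (Ioo 0 (Real.exp (-(4 + 2 * β)))) := by
    apply h1.sqrt
    intro r hr
    obtain ⟨ht, _, _⟩ := t_facts hβ hr.1 hr.2
    linarith
  apply (h2.sub contDiffOn_const).rpow_const_of_ne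
  intro r hr
  obtain ⟨_, hs, _⟩ := t_facts hβ hr.1 hr.2
  linarith

theorem ne_ae (hn : 2 ≤ n) (a : E n) : ∀ᵐ x ∂(volume : Measure (E n)), x ≠ a := by
  have := nontrivial_E' hn
  rw [ae_iff]
  simp

/-- The example is a ray map. -/
theorem rayMap_exG (hn : 2 ≤ n) {κ : ℝ} (hκ : 0 < κ) {Ψ : E n → E n} (hΨ : ExactAngular κ Ψ)
    {β : ℝ} (hβ : 0 < β) :
    RayMap (ball 0 (Real.exp (-(4 + 2 * β)))) 0 0 Ψ (exG n β Ψ) where
  cont := continuousOn_exG hn hΨ.toAngular hβ
  ray := by
    intro x hx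
    rw [mem_ball_zero_iff] at hx
    refine ⟨phi n β ‖x‖ / ‖x‖, ?_, by simp [exG]⟩
    by_cases h0 : x = 0
    · simp [h0]
    · have hr : 0 < ‖x‖ := norm_pos_iff.2 h0
      obtain ⟨_, hs, _⟩ := t_facts hβ hr hx
      have := phi_pos (n := n) (β := β) hs
      positivity
  ac := by
    filter_upwards with ω
    intro s t hs hst hmem
    have hω : ‖(ω : E n)‖ = 1 := by simp
    apply ContDiffOn.absolutelyContinuousOnInterval
    rw [uIcc_of_le hst]
    have htR : t < Real.exp (-(4 + 2 * β)) := by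
      have h1 := hmem t ⟨hst, le_rfl⟩
      rw [mem_ball_zero_iff, zero_add, norm_smul, hω, mul_one,
        Real.norm_of_nonneg (by linarith)] at h1
      exact h1
    have h2 : ContDiffOn ℝ 1 (fun r : ℝ => phi n β r • Ψ (ω : E n)) (Icc s t) :=
      ((contDiffOn_phi hβ).mono (fun r hr => ⟨hs.trans_le hr.1, hr.2.trans_lt htR⟩)).smul
        contDiffOn_const
    apply h2.congr
    intro r hr
    have hr0 : 0 < r := hs.trans_le hr.1
    unfold exG
    rw [zero_add, norm_smul, hω, mul_one, Real.norm_of_nonneg hr0.le,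
      hΨ.toAngular.hom r _ hr0.le, smul_smul]
    congr 1
    field_simp
  diff := by
    rw [ae_restrict_iff' measurableSet_ball]
    obtain ⟨L, hL⟩ := hΨ.toAngular.lip
    filter_upwards [ne_ae hn 0, hL.ae_differentiableAt, hΨ.exact] with x hx hd he hxb
    rw [mem_ball_zero_iff] at hxb
    have hr : 0 < ‖x‖ := norm_pos_iff.2 hx
    obtain ⟨_, hs, _⟩ := t_facts hβ hr hxb
    have hphi := phi_pos (n := n) (β := β) hs
    have hk := one_le_kk hn hβ hr hxb
    have hj := inv_le_jac hκ hΨ.toAngular hx hd he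
    have hj0 : 0 < jac Ψ x := lt_of_lt_of_le (by positivity) hj
    have hJ : 0 < jac (exG n β Ψ) x := by
      rw [jac_exG hn hΨ.toAngular hβ hx hxb hd]
      positivity
    exact ⟨(hasFDerivAt_exG hn hΨ.toAngular hβ hx hxb hd).differentiableAt, hJ.le,
      fun h => absurd h hJ.ne'⟩

end Pool.Agent.RayM
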