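import Pool.Agent.RayM.Ex2
import Pool.Agent.RayM.Center

/-!
# The radial example: integrability and non-integrability
-/

namespace Pool.Agent.RayM

open MeasureTheory Set Metric Filter
open scoped RealInnerProductSpace Topology

variable {n : ℕ}

theorem exp_kk (hn : 2 ≤ n) {β r : ℝ} (hβ : 0 < β) (hr : 0 < r) :
    Real.exp (β * kk n β r) = r⁻¹ ^ n * Real.exp (-(n * √(-Real.log r))) := by
  unfold kk
  have e1 : β * (n / β * (-Real.log r - √(-Real.log r))) =
      n * (-Real.log r) + -(n * √(-Real.log r)) := by field_simp; ring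
  rw [e1, Real.exp_add, Real.exp_nat_mul, Real.exp_neg, Real.exp_log hr]

theorem exp_sqrt_le (hn : 2 ≤ n) {t : ℝ} (ht : 0 < t) :
    Real.exp (-(n * √t)) ≤ 24 / t ^ 2 := by
  have hn1 : (1 : ℝ) ≤ n := by exact_mod_cast (by omega : 1 ≤ n)
  have hs : 0 < √t := Real.sqrt_pos.2 ht
  have h1 := Real.pow_div_factorial_le_exp (√t) hs.le 4
  have h2 : √t ^ 4 = t ^ 2 := by
    calc √t ^ 4 = (√t ^ 2) ^ 2 := by ring
      _ = t ^ 2 := by rw [Real.sq_sqrt ht.le]
  have h3 : (Nat.factorial 4 : ℝ) = 24 := by norm_num [Nat.factorial]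
  rw [h2, h3] at h1
  have h4 : Real.exp (√t) ≤ Real.exp (n * √t) := by
    apply Real.exp_le_exp.2
    nlinarith
  rw [Real.exp_neg, inv_le_comm₀ (Real.exp_pos _) (by positivity)]
  calc (24 / t ^ 2)⁻¹ = t ^ 2 / 24 := by rw [inv_div]
    _ ≤ _ := h1.trans h4

theorem integrableOn_inv_log_sq {R : ℝ} (hR : R < 1) :
    IntegrableOn (fun y : ℝ => y⁻¹ / Real.log y ^ 2) (Ioo 0 R) := by
  have h1 : IntegrableOn (fun y : ℝ => y⁻¹ / Real.log y ^ 2) (Ioc 0 R) := by
    apply intervalIntegral.integrableOn_deriv_of_nonneg (g := fun y => -(Real.log y)⁻¹)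
    · intro y hy
      rcases hy.1.eq_or_lt with h0 | h0
      · subst h0
        have h2 : Tendsto (fun y : ℝ => -(Real.log y)⁻¹) (𝓝[>] 0) (𝓝 (-0)) :=
          (Real.tendsto_log_nhdsGT_zero.inv_tendsto_atBot).neg
        have h3 : ContinuousWithinAt (fun y : ℝ => -(Real.log y)⁻¹) (Ici 0) 0 := by
          rw [continuousWithinAt_Ioi_iff_Ici.symm]
          unfold ContinuousWithinAt
          simpa using h2
        exact h3.mono Icc_subset_Ici_self
      · apply ContinuousAt.continuousWithinAt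
        apply ContinuousAt.neg
        apply ContinuousAt.inv₀ (Real.continuousAt_log h0.ne')
        exact (Real.log_neg h0 (hy.2.trans_lt hR)).ne
    · intro y hy
      have h2 : Real.log y ≠ 0 := (Real.log_neg hy.1 (hy.2.trans hR)).ne
      have h3 := ((Real.hasDerivAt_log hy.1.ne').inv h2).neg
      rw [neg_div, neg_neg] at h3
      exact h3
    · intro y hy
      have := hy.1
      positivity
  exact h1.mono_set Ioo_subset_Ioc_self

theorem integrableOn_exp_exG (hn : 2 ≤ n) {κ : ℝ} (hκ : 0 < κ) {Ψ : E n → E n}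
    (hΨ : ExactAngular κ Ψ) {β : ℝ} (hβ : 0 < β) :
    IntegrableOn (fun x => Real.exp (β * distortion (exG n (κ * β) Ψ) x))
      (ball (0 : E n) (Real.exp (-(4 + 2 * (κ * β))))) := by
  have := nontrivial_E hn
  have hκβ : 0 < κ * β := by positivity
  set R := Real.exp (-(4 + 2 * (κ * β))) with hR
  have hR1 : R < 1 := by rw [hR, Real.exp_lt_one_iff]; linarith
  have h1 : IntegrableOn (fun x : E n => ‖x‖⁻¹ ^ n * (24 / Real.log ‖x‖ ^ 2)) (ball 0 R) := by
    have h2 := (integrableOn_fun_norm_addHaar (volume : Measure (E n))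
      (f := fun y : ℝ => y⁻¹ ^ n * (24 / Real.log y ^ 2)) (r := R)).2
    apply h2
    have h3 := (integrableOn_inv_log_sq hR1).const_mul 24
    apply IntegrableOn.congr_fun h3 _ measurableSet_Ioo
    intro y hy
    have hy0 : 0 < y := hy.1
    simp only [finrank_euclideanSpace, Fintype.card_fin, smul_eq_mul]
    obtain ⟨m, rfl⟩ : ∃ m, n = m + 1 := ⟨n - 1, by omega⟩
    have h5 : y ^ m * y⁻¹ ^ (m + 1) = y⁻¹ := by
      rw [inv_pow, pow_succ, mul_inv, ← mul_assoc, mul_inv_cancel₀ (by positivity), one_mul]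
    rw [Nat.add_sub_cancel, ← mul_assoc, h5]
    ring
  refine Integrable.mono' h1
    ((measurable_distortion _).const_mul β).exp.aestronglyMeasurable ?_
  rw [ae_restrict_iff' measurableSet_ball]
  obtain ⟨L, hL⟩ := hΨ.toAngular.lip
  filter_upwards [ne_ae hn 0, hL.ae_differentiableAt, hΨ.exact] with x hx hd he hxb
  rw [mem_ball_zero_iff] at hxb
  have hr : 0 < ‖x‖ := norm_pos_iff.2 hx
  obtain ⟨ht, hs, _⟩ := t_facts hκβ hr hxb
  rw [Real.norm_of_nonneg (Real.exp_pos _).le]
  calc Real.exp (β * distortion (exG n (κ * β) Ψ) x) ≤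
      Real.exp (κ * β * kk n (κ * β) ‖x‖) := by
        apply Real.exp_le_exp.2
        have := distortion_exG_le hn hκ hΨ.toAngular hκβ hx hxb hd he
        calc β * distortion (exG n (κ * β) Ψ) x ≤ β * (κ * kk n (κ * β) ‖x‖) := by gcongr
          _ = _ := by ring
    _ = ‖x‖⁻¹ ^ n * Real.exp (-(n * √(-Real.log ‖x‖))) := exp_kk hn hκβ hr
    _ ≤ ‖x‖⁻¹ ^ n * (24 / (-Real.log ‖x‖) ^ 2) := by
        gcongr
        exact exp_sqrt_le hn (by linarith)
    _ = _ := by rw [neg_sq]

theorem not_integrableOn_inv_log {R : ℝ} (hR : 0 < R) :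
    ¬ IntegrableOn (fun y : ℝ => y⁻¹ / (-Real.log y)) (Ioo 0 R) := by
  have hlog : Tendsto (fun y : ℝ => -Real.log y) (𝓝[>] 0) atTop :=
    tendsto_neg_atBot_atTop.comp Real.tendsto_log_nhdsGT_zero
  have hev : ∀ᶠ y : ℝ in 𝓝[>] 0, 0 < y ∧ 0 < -Real.log y := by
    filter_upwards [self_mem_nhdsWithin, hlog.eventually_gt_atTop 0] with y h1 h2
    exact ⟨h1, h2⟩
  have hder : ∀ y : ℝ, 0 < y → 0 < -Real.log y →
      HasDerivAt (fun y => Real.log (-Real.log y)) (-(y⁻¹) / (-Real.log y)) y := by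
    intro y h1 h2
    exact ((Real.hasDerivAt_log h1.ne').neg).log h2.ne'
  apply not_integrableOn_of_tendsto_norm_atTop_of_deriv_isBigO_filter
    (f := fun y => Real.log (-Real.log y)) (l := 𝓝[>] (0 : ℝ))
  · exact Ioo_mem_nhdsGT hR
  · filter_upwards [hev] with y hy
    exact (hder y hy.1 hy.2).differentiableAt
  · exact tendsto_norm_atTop_atTop.comp (Real.tendsto_log_atTop.comp hlog)
  · apply Asymptotics.IsBigO.of_bound 1
    filter_upwards [hev] with y hy
    rw [(hder y hy.1 hy.2).deriv, one_mul, neg_div, norm_neg]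

end Pool.Agent.RayM
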