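import Pool.Agent.RayM.Pt

/-!
# Almost everywhere facts for ray maps
-/

namespace Pool.Agent.RayM

open MeasureTheory Set Metric
open scoped RealInnerProductSpace

variable {n : ℕ}

theorem Angular.fderiv_smul {κ : ℝ} {Ψ : E n → E n} (hΨ : Angular κ Ψ) {r : ℝ} (hr : 0 < r) (y : E n) :
    fderiv ℝ Ψ (r • y) = fderiv ℝ Ψ y := by
  have h1 : (fun z => Ψ (r • z)) = r • Ψ := by
    ext1 z
    exact hΨ.hom r z hr.le
  have h2 := fderiv_comp_smul (𝕜 := ℝ) (f := Ψ) (x := y) r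
  rw [h1, fderiv_const_smul_field] at h2
  rw [Pi.smul_apply] at h2
  exact (smul_right_injective _ hr.ne' h2).symm

theorem Angular.jac_smul {κ : ℝ} {Ψ : E n → E n} (hΨ : Angular κ Ψ) {r : ℝ} (hr : 0 < r) (y : E n) :
    jac Ψ (r • y) = jac Ψ y := by
  unfold jac
  rw [hΨ.fderiv_smul hr]

/-- The facts at a good point. The constant `Λ` bounds the Jacobian of the angular part. -/
structure Facts (κ : ℝ) (a b : E n) (Ψ f : E n → E n) (Λ : ℝ) (x : E n) : Prop where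
  diff : DifferentiableAt ℝ f x
  jac_nonneg : 0 ≤ jac f x
  one_le : 1 ≤ distortion f x
  norm_eq : ‖fderiv ℝ f x‖ ^ n = distortion f x * jac f x
  jac_eq : jac f x = (‖f x - b‖ / ‖x - a‖) ^ (n - 1) *
      (⟪fderiv ℝ f x (x - a), Ψ (x - a)⟫ / ‖x - a‖ ^ 2) * jac Ψ (x - a)
  ang_le : κ * ((‖f x - b‖ / ‖x - a‖) ^ n * jac Ψ (x - a)) ≤ distortion f x * jac f x
  jang_nonneg : 0 ≤ jac Ψ (x - a)
  jang_le : jac Ψ (x - a) ≤ Λ
  jac_le : jac f x ≤ Λ ^ 2 * distortion f x * (‖f x - b‖ / ‖x - a‖) ^ n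

theorem facts_ae (hn : 2 ≤ n) {κ : ℝ} {U : Set (E n)} (hU : IsOpen U) {a b : E n}
    {Ψ f : E n → E n} (hΨ : Angular κ Ψ) (hf : RayMap U a b Ψ f) :
    ∃ Λ : ℝ, 1 ≤ Λ ∧ ∀ᵐ x ∂(volume : Measure (E n)), x ∈ U → Facts κ a b Ψ f Λ x := by
  obtain ⟨L, hL⟩ := hΨ.lip
  have hLn : 0 ≤ (L : ℝ) ^ n := by positivity
  refine ⟨(L : ℝ) ^ n + 1, by linarith, ?_⟩
  set Λ : ℝ := (L : ℝ) ^ n + 1 with hΛ
  have hΛ1 : 1 ≤ Λ := by linarith
  have hsub : Measure.QuasiMeasurePreserving (fun x : E n => x - a) volume volume :=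
    (measurePreserving_sub_right volume a).quasiMeasurePreserving
  have hd : ∀ᵐ x ∂(volume : Measure (E n)), DifferentiableAt ℝ Ψ (x - a) :=
    hsub.ae hL.ae_differentiableAt
  have hs := hsub.ae hΨ.spread
  have hne : ∀ᵐ x ∂(volume : Measure (E n)), x ≠ a := by
    have : (volume : Measure (E n)) {a} = 0 := by
      have : Nonempty (Fin n) := ⟨⟨0, by omega⟩⟩
      have : Nontrivial (E n) := inferInstance
      exact measure_singleton a
    rw [ae_iff]
    simpa using this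
  have hdf := hf.diff
  rw [ae_restrict_iff' hU.measurableSet] at hdf
  filter_upwards [hd, hs, hne, hdf] with x h1 h2 h3 h4 hxU
  obtain ⟨h5, h6, h7⟩ := h4 hxU
  have hray : ∀ᶠ z in nhds x, ∃ c : ℝ, 0 ≤ c ∧ f z = b + c • Ψ (z - a) := by
    filter_upwards [hU.mem_nhds hxU] with z hz using hf.ray z hz
  obtain ⟨p1, p2, p3⟩ := pt_facts hn hΨ h3 hray h5 h1 h2
  have hjΛ : jac Ψ (x - a) ≤ Λ := by
    have h8 : ‖fderiv ℝ Ψ (x - a)‖ ≤ L := norm_fderiv_le_of_lipschitz ℝ hL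
    calc jac Ψ (x - a) ≤ |jac Ψ (x - a)| := le_abs_self _
      _ ≤ ‖fderiv ℝ Ψ (x - a)‖ ^ n := abs_det_le _
      _ ≤ (L : ℝ) ^ n := by gcongr
      _ ≤ Λ := by linarith
  have hnorm : ‖fderiv ℝ f x‖ ^ n = distortion f x * jac f x := by
    unfold distortion
    by_cases hJ : 0 < jac f x
    · rw [if_pos hJ]; field_simp
    · have hJ0 : jac f x = 0 := le_antisymm (not_lt.1 hJ) h6
      rw [if_neg hJ, h7 hJ0, hJ0]
      simp
      omega
  have hK : 1 ≤ distortion f x := by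
    unfold distortion
    by_cases hJ : 0 < jac f x
    · rw [if_pos hJ, le_div_iff₀ hJ, one_mul]
      exact (le_abs_self _).trans (abs_det_le _)
    · rw [if_neg hJ]
  set G := ‖f x - b‖ / ‖x - a‖ with hG
  set P := ⟪fderiv ℝ f x (x - a), Ψ (x - a)⟫ / ‖x - a‖ ^ 2 with hP
  set K := distortion f x with hKd
  set J := jac f x with hJd
  set D := ‖fderiv ℝ f x‖ with hDd
  have hG0 : 0 ≤ G := by positivity
  have hj0 := h2.1
  refine ⟨h5, h6, hK, hnorm, p1, by rw [← hnorm]; exact p2, hj0, hjΛ, ?_⟩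
  rcases h6.eq_or_lt with hJ0 | hJpos
  · change J ≤ Λ ^ 2 * K * G ^ n
    rw [← hJ0]; positivity
  · have hn1 : n - 1 ≠ 0 := by omega
    have hP0 : 0 < P := by
      by_contra hcon
      push Not at hcon
      have : G ^ (n - 1) * P * jac Ψ (x - a) ≤ 0 := by
        apply mul_nonpos_of_nonpos_of_nonneg _ hj0
        exact mul_nonpos_of_nonneg_of_nonpos (by positivity) hcon
      linarith
    have e1 : P ^ n = P ^ (n - 1) * P := by
      rw [← pow_succ]; congr 1; omega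
    have e2 : P ^ (n - 1) * P ≤ (K * (G ^ (n - 1) * jac Ψ (x - a))) * P := by
      rw [← e1]
      calc P ^ n ≤ D ^ n := by gcongr
        _ = K * J := hnorm
        _ = _ := by rw [p1]; ring
    have e3 : P ^ (n - 1) ≤ K * (G ^ (n - 1) * jac Ψ (x - a)) := le_of_mul_le_mul_right e2 hP0
    have hKΛ : 1 ≤ K * Λ := by nlinarith
    have e4 : P ^ (n - 1) ≤ (K * Λ * G) ^ (n - 1) := by
      calc P ^ (n - 1) ≤ K * (G ^ (n - 1) * jac Ψ (x - a)) := e3
        _ ≤ K * (G ^ (n - 1) * Λ) := by gcongr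
        _ = (K * Λ) * G ^ (n - 1) := by ring
        _ ≤ (K * Λ) ^ (n - 1) * G ^ (n - 1) := by
            gcongr
            exact le_self_pow₀ hKΛ hn1
        _ = (K * Λ * G) ^ (n - 1) := (mul_pow _ _ _).symm
    have e5 : P ≤ K * Λ * G := le_of_pow_le_pow_left₀ hn1 (by positivity) e4
    calc J = G ^ (n - 1) * P * jac Ψ (x - a) := p1
      _ ≤ G ^ (n - 1) * (K * Λ * G) * Λ := by gcongr
      _ = Λ ^ 2 * K * (G ^ (n - 1) * G) := by ring
      _ = Λ ^ 2 * K * G ^ n := by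
          rw [← pow_succ]; congr 2; omega

end Pool.Agent.RayM
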