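import Pool.Agent.RayM.Ex2

/-!
# Winding maps are exact angular maps
-/

namespace Pool.Agent.RayM

open MeasureTheory Set Metric Filter
open scoped RealInnerProductSpace Topology

/-! ## The planar winding map -/

/-- The planar winding map `r e^{iθ} ↦ r e^{i(k+1)θ}`. -/
noncomputable def wind (k : ℕ) (z : ℂ) : ℂ := z * (z / ‖z‖) ^ k

theorem norm_wind (k : ℕ) (z : ℂ) : ‖wind k z‖ = ‖z‖ := by
  unfold wind
  by_cases hz : z = 0
  · simp [hz]
  · have h1 : ‖z / ‖z‖‖ = 1 := by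
      rw [norm_div, Complex.norm_real, norm_norm, div_self (norm_ne_zero_iff.2 hz)]
    rw [norm_mul, norm_pow, h1, one_pow, mul_one]

theorem wind_smul (k : ℕ) (r : ℝ) (hr : 0 ≤ r) (z : ℂ) : wind k (r • z) = r • wind k z := by
  rcases hr.eq_or_lt with h | h
  · rw [← h]; simp [wind]
  · unfold wind
    have h1 : (r • z) / ‖r • z‖ = z / ‖z‖ := by
      rw [norm_smul, Real.norm_of_nonneg hr, Complex.real_smul]
      push_cast
      rw [mul_div_mul_left]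
      exact_mod_cast h.ne'
    rw [h1, smul_mul_assoc]

theorem pow_sub_pow_le (k : ℕ) {u v : ℂ} (hu : ‖u‖ ≤ 1) (hv : ‖v‖ ≤ 1) :
    ‖u ^ k - v ^ k‖ ≤ k * ‖u - v‖ := by
  induction k with
  | zero => simp
  | succ k ih =>
    have h1 : u ^ (k + 1) - v ^ (k + 1) = u ^ k * (u - v) + (u ^ k - v ^ k) * v := by ring
    have h2 : ‖u ^ k‖ ≤ 1 := by rw [norm_pow]; exact pow_le_one₀ (norm_nonneg _) hu
    calc ‖u ^ (k + 1) - v ^ (k + 1)‖ ≤ ‖u ^ k‖ * ‖u - v‖ + ‖u ^ k - v ^ k‖ * ‖v‖ := by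
          rw [h1, ← norm_mul, ← norm_mul]; exact norm_add_le _ _
      _ ≤ 1 * ‖u - v‖ + (k * ‖u - v‖) * 1 := by gcongr
      _ = ((k + 1 : ℕ) : ℝ) * ‖u - v‖ := by push_cast; ring

theorem wind_lipschitz (k : ℕ) (z w : ℂ) : ‖wind k z - wind k w‖ ≤ (1 + 2 * k) * ‖z - w‖ := by
  by_cases hz : z = 0
  · subst hz
    have : wind k 0 = 0 := by simp [wind]
    rw [this, zero_sub, norm_neg, zero_sub, norm_neg, norm_wind]
    nlinarith [norm_nonneg w, (Nat.cast_nonneg k : (0 : ℝ) ≤ k)]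
  by_cases hw : w = 0
  · subst hw
    have : wind k 0 = 0 := by simp [wind]
    rw [this, sub_zero, sub_zero, norm_wind]
    nlinarith [norm_nonneg z, (Nat.cast_nonneg k : (0 : ℝ) ≤ k)]
  have hz0 : ‖z‖ ≠ 0 := norm_ne_zero_iff.2 hz
  have hw0 : ‖w‖ ≠ 0 := norm_ne_zero_iff.2 hw
  have hu : ‖z / ‖z‖‖ = 1 := by rw [norm_div, Complex.norm_real, norm_norm, div_self hz0]
  have hv : ‖w / ‖w‖‖ = 1 := by rw [norm_div, Complex.norm_real, norm_norm, div_self hw0]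
  have h1 : wind k z - wind k w = (z - w) * (z / ‖z‖) ^ k +
      w * ((z / ‖z‖) ^ k - (w / ‖w‖) ^ k) := by unfold wind; ring
  have h2 : ‖w‖ * ‖z / ‖z‖ - w / ‖w‖‖ ≤ 2 * ‖z - w‖ := by
    have e1 : ‖w‖ * ‖z / ‖z‖ - w / ‖w‖‖ = ‖(‖w‖ : ℂ) * (z / ‖z‖) - w‖ := by
      have e0 : ‖w‖ = ‖(‖w‖ : ℂ)‖ := by rw [Complex.norm_real, norm_norm]
      have : (‖w‖ : ℂ) ≠ 0 := by exact_mod_cast hw0
      calc ‖w‖ * ‖z / ‖z‖ - w / ‖w‖‖ = ‖(‖w‖ : ℂ)‖ * ‖z / ‖z‖ - w / ‖w‖‖ := by rw [← e0]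
        _ = ‖(‖w‖ : ℂ) * (z / ‖z‖ - w / ‖w‖)‖ := (norm_mul _ _).symm
        _ = _ := by rw [mul_sub, mul_div_cancel₀ _ this]
    have e2 : (‖w‖ : ℂ) * (z / ‖z‖) - w = (z - w) + ((‖w‖ - ‖z‖ : ℝ) : ℂ) * (z / ‖z‖) := by
      have : (‖z‖ : ℂ) ≠ 0 := by exact_mod_cast hz0
      push_cast
      field_simp
      ring
    rw [e1, e2]
    calc ‖(z - w) + ((‖w‖ - ‖z‖ : ℝ) : ℂ) * (z / ‖z‖)‖ ≤
          ‖z - w‖ + ‖((‖w‖ - ‖z‖ : ℝ) : ℂ)‖ * ‖z / ‖z‖‖ := by
          rw [← norm_mul]; exact norm_add_le _ _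
      _ ≤ ‖z - w‖ + ‖z - w‖ * 1 := by
          rw [hu, Complex.norm_real, Real.norm_eq_abs]
          gcongr
          rw [norm_sub_rev]
          exact abs_norm_sub_norm_le _ _
      _ = 2 * ‖z - w‖ := by ring
  calc ‖wind k z - wind k w‖ ≤ ‖z - w‖ * ‖(z / ‖z‖) ^ k‖ +
        ‖w‖ * ‖(z / ‖z‖) ^ k - (w / ‖w‖) ^ k‖ := by
        rw [h1, ← norm_mul, ← norm_mul]; exact norm_add_le _ _
    _ ≤ ‖z - w‖ * 1 + ‖w‖ * (k * ‖z / ‖z‖ - w / ‖w‖‖) := by
        gcongr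
        · rw [norm_pow, hu, one_pow]
        · exact pow_sub_pow_le k hu.le hv.le
    _ = ‖z - w‖ + k * (‖w‖ * ‖z / ‖z‖ - w / ‖w‖‖) := by ring
    _ ≤ ‖z - w‖ + k * (2 * ‖z - w‖) := by gcongr
    _ = (1 + 2 * k) * ‖z - w‖ := by ring

/-- The derivative of `z ↦ z / |z|`. -/
theorem hasFDerivAt_dir {z : ℂ} (hz : z ≠ 0) :
    HasFDerivAt (fun z : ℂ => z / ‖z‖)
      ((‖z‖⁻¹ : ℝ) • ((innerSL ℝ (Complex.I * (z / ‖z‖))).smulRight (Complex.I * (z / ‖z‖)))) z := by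
  have hr : 0 < ‖z‖ := norm_pos_iff.2 hz
  have hrc : (‖z‖ : ℂ) ≠ 0 := by exact_mod_cast hr.ne'
  have hsqrt : √(‖z‖ ^ 2) = ‖z‖ := Real.sqrt_sq hr.le
  have h3 : HasDerivAt (fun s : ℝ => (√s)⁻¹) (-(1 / (2 * √(‖z‖ ^ 2))) / √(‖z‖ ^ 2) ^ 2)
      (‖z‖ ^ 2) :=
    (Real.hasDerivAt_sqrt (by positivity)).inv (by rw [hsqrt]; exact hr.ne')
  have h5 : HasFDerivAt (fun z : ℂ => ‖z‖ ^ 2) (2 • innerSL ℝ z) z :=
    (hasStrictFDerivAt_norm_sq z).hasFDerivAt
  have h6 := h3.comp_hasFDerivAt z (f := fun z : ℂ => ‖z‖ ^ 2) h5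
  have h7 := h6.smul (hasFDerivAt_id (𝕜 := ℝ) z)
  have e1 : (fun z : ℂ => z / ‖z‖) =
      fun z : ℂ => ((fun s : ℝ => (√s)⁻¹) ∘ fun z : ℂ => ‖z‖ ^ 2) z • id z := by
    ext1 w
    simp only [Function.comp, id]
    rw [Real.sqrt_sq (norm_nonneg w), Complex.real_smul]
    push_cast
    ring
  rw [e1]
  refine h7.congr_fderiv ?_
  ext1 v
  simp only [smul_apply, ContinuousLinearMap.smulRight_apply, innerSL_apply_apply, add_apply,
    Function.comp, hsqrt, ContinuousLinearMap.id_apply, smul_eq_mul, id]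
  have hr2 : ‖z‖ ^ 2 = z.re ^ 2 + z.im ^ 2 := by
    rw [← Complex.normSq_eq_norm_sq, Complex.normSq_apply]; ring
  set r := ‖z‖ with hrdef
  have hu1 : (z / (r : ℂ)).re = z.re / r := Complex.div_ofReal_re _ _
  have hu2 : (z / (r : ℂ)).im = z.im / r := Complex.div_ofReal_im _ _
  have hin1 : ⟪z, v⟫ = z.re * v.re + z.im * v.im := by
    rw [Complex.inner]
    simp
    ring
  have hin2 : ⟪Complex.I * (z / (r : ℂ)), v⟫ = -(z.im / r) * v.re + z.re / r * v.im := by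
    rw [Complex.inner]
    simp
    ring
  rw [hin2]
  simp only [two_smul, hin1]
  apply Complex.ext
  · simp only [Complex.add_re, Complex.real_smul, Complex.mul_re, Complex.ofReal_re,
      Complex.ofReal_im, Complex.I_re, Complex.I_im, hu1, hu2, zero_mul, sub_zero, one_mul,
      zero_sub]
    field_simp
    rw [hr2]
    ring
  · simp only [Complex.add_im, Complex.real_smul, Complex.mul_im, Complex.ofReal_re,
      Complex.ofReal_im, Complex.I_re, Complex.I_im, hu1, hu2, zero_mul, add_zero, one_mul,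
      zero_add]
    field_simp
    rw [hr2]
    ring

/-- The derivative of the planar winding map. -/
noncomputable def windD (k : ℕ) (z : ℂ) : ℂ →L[ℝ] ℂ :=
  ((z / ‖z‖) ^ k) • (ContinuousLinearMap.id ℝ ℂ +
    ((k : ℝ) • innerSL ℝ (Complex.I * (z / ‖z‖))).smulRight (Complex.I * (z / ‖z‖)))

theorem hasFDerivAt_wind (k : ℕ) {z : ℂ} (hz : z ≠ 0) :
    HasFDerivAt (wind k) (windD k z) z := by
  have hr : 0 < ‖z‖ := norm_pos_iff.2 hz
  have hrc : (‖z‖ : ℂ) ≠ 0 := by exact_mod_cast hr.ne'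
  have h1 := (hasFDerivAt_id (𝕜 := ℝ) z).mul ((hasFDerivAt_dir hz).pow k)
  refine h1.congr_fderiv ?_
  ext1 v
  unfold windD
  simp only [smul_apply, ContinuousLinearMap.smulRight_apply, innerSL_apply_apply, add_apply,
    ContinuousLinearMap.id_apply, smul_eq_mul, id, nsmul_eq_mul, Complex.real_smul]
  rcases Nat.eq_zero_or_pos k with h | h
  · subst h; simp
  · obtain ⟨m, rfl⟩ : ∃ m, k = m + 1 := ⟨k - 1, by omega⟩
    rw [Nat.add_sub_cancel]
    push_cast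
    rw [pow_succ (z / (‖z‖ : ℂ)) m]
    have e1 : z * (‖z‖ : ℂ)⁻¹ = z / ‖z‖ := by rw [div_eq_mul_inv]
    generalize ((⟪Complex.I * (z / (‖z‖ : ℂ)), v⟫ : ℝ) : ℂ) = q
    field_simp
    ring

/-! ## The winding map in space -/

variable {n : ℕ}

/-- The projection to the plane of the first two coordinates. -/
noncomputable def PP (hn : 2 ≤ n) : E n →L[ℝ] ℂ :=
  (Complex.equivRealProdCLM.symm : ℝ × ℝ →L[ℝ] ℂ).comp
    ((EuclideanSpace.proj (⟨0, by omega⟩ : Fin n) : E n →L[ℝ] ℝ).prod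
      (EuclideanSpace.proj (⟨1, by omega⟩ : Fin n) : E n →L[ℝ] ℝ))

/-- The inclusion of the plane of the first two coordinates. -/
noncomputable def QQ (hn : 2 ≤ n) : ℂ →L[ℝ] E n :=
  Complex.reCLM.smulRight (EuclideanSpace.single (⟨0, by omega⟩ : Fin n) (1 : ℝ)) +
    Complex.imCLM.smulRight (EuclideanSpace.single (⟨1, by omega⟩ : Fin n) (1 : ℝ))

theorem PP_re (hn : 2 ≤ n) (x : E n) : (PP hn x).re = x ⟨0, by omega⟩ := by
  simp [PP]

theorem PP_im (hn : 2 ≤ n) (x : E n) : (PP hn x).im = x ⟨1, by omega⟩ := by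
  simp [PP]

theorem inner_QQ (hn : 2 ≤ n) (z : ℂ) (x : E n) : ⟪QQ hn z, x⟫ = ⟪z, PP hn x⟫ := by
  have h1 : ⟪z, PP hn x⟫ = z.re * (PP hn x).re + z.im * (PP hn x).im := by
    rw [Complex.inner]
    simp
    ring
  rw [h1, PP_re, PP_im]
  simp only [QQ, add_apply, ContinuousLinearMap.smulRight_apply, Complex.reCLM_apply,
    Complex.imCLM_apply, inner_add_left, real_inner_smul_left, EuclideanSpace.inner_single_left]
  simp

theorem PP_QQ (hn : 2 ≤ n) (z : ℂ) : PP hn (QQ hn z) = z := by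
  apply Complex.ext
  · rw [PP_re]
    simp [QQ]
  · rw [PP_im]
    simp [QQ]

theorem norm_dec (hn : 2 ≤ n) (x : E n) (w : ℂ) :
    ‖x - QQ hn (PP hn x) + QQ hn w‖ ^ 2 = ‖x - QQ hn (PP hn x)‖ ^ 2 + ‖w‖ ^ 2 := by
  have h1 : ⟪x - QQ hn (PP hn x), QQ hn w⟫ = 0 := by
    rw [real_inner_comm, inner_QQ, map_sub, PP_QQ, sub_self, inner_zero_right]
  have h2 : ‖QQ hn w‖ ^ 2 = ‖w‖ ^ 2 := by
    rw [← real_inner_self_eq_norm_sq, inner_QQ, PP_QQ, real_inner_self_eq_norm_sq]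
  rw [norm_add_sq_real, h1, h2]
  ring

theorem norm_sq_dec (hn : 2 ≤ n) (x : E n) :
    ‖x‖ ^ 2 = ‖x - QQ hn (PP hn x)‖ ^ 2 + ‖PP hn x‖ ^ 2 := by
  have := norm_dec hn x (PP hn x)
  rwa [sub_add_cancel] at this

theorem norm_of_dec (hn : 2 ≤ n) (x : E n) (w : ℂ) (hw : ‖w‖ = ‖PP hn x‖) :
    ‖x - QQ hn (PP hn x) + QQ hn w‖ = ‖x‖ := by
  have h1 := norm_dec hn x w
  rw [hw, ← norm_sq_dec hn x] at h1
  exact (sq_eq_sq₀ (norm_nonneg _) (norm_nonneg _)).1 h1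

theorem norm_PP_le (hn : 2 ≤ n) (x : E n) : ‖PP hn x‖ ≤ ‖x‖ := by
  have h1 := norm_sq_dec hn x
  have h2 : ‖PP hn x‖ ^ 2 ≤ ‖x‖ ^ 2 := by nlinarith [sq_nonneg ‖x - QQ hn (PP hn x)‖]
  exact le_of_sq_le_sq h2 (norm_nonneg _)

theorem norm_QQ (hn : 2 ≤ n) (z : ℂ) : ‖QQ hn z‖ = ‖z‖ := by
  have h2 : ‖QQ hn z‖ ^ 2 = ‖z‖ ^ 2 := by
    rw [← real_inner_self_eq_norm_sq, inner_QQ, PP_QQ, real_inner_self_eq_norm_sq]
  exact (sq_eq_sq₀ (norm_nonneg _) (norm_nonneg _)).1 h2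

/-- The winding map `(r, θ, z) ↦ (r, (k+1) θ, z)` of `ℝⁿ`. -/
noncomputable def wmap (hn : 2 ≤ n) (k : ℕ) (x : E n) : E n :=
  x - QQ hn (PP hn x) + QQ hn (wind k (PP hn x))

/-- Multiplication by `c` in the plane of the first two coordinates. -/
noncomputable def RR (hn : 2 ≤ n) (c : ℂ) : E n →L[ℝ] E n :=
  ContinuousLinearMap.id ℝ (E n) - (QQ hn).comp (PP hn) +
    (QQ hn).comp ((c • ContinuousLinearMap.id ℝ ℂ).comp (PP hn))

theorem RR_apply (hn : 2 ≤ n) (c : ℂ) (x : E n) :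
    RR hn c x = x - QQ hn (PP hn x) + QQ hn (c * PP hn x) := by
  simp [RR]

theorem RR_mul (hn : 2 ≤ n) (c d : ℂ) : RR hn (c * d) = (RR hn c).comp (RR hn d) := by
  ext1 x
  rw [ContinuousLinearMap.comp_apply, RR_apply, RR_apply, RR_apply]
  simp only [map_add, map_sub, PP_QQ, sub_self, zero_add, mul_assoc]
  abel

theorem RR_one (hn : 2 ≤ n) : RR hn 1 = ContinuousLinearMap.id ℝ (E n) := by
  ext1 x
  rw [RR_apply, one_mul, sub_add_cancel]
  rfl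

theorem norm_RR_apply (hn : 2 ≤ n) {c : ℂ} (hc : ‖c‖ = 1) (x : E n) : ‖RR hn c x‖ = ‖x‖ := by
  rw [RR_apply]
  apply norm_of_dec
  rw [norm_mul, hc, one_mul]

theorem norm_RR_le (hn : 2 ≤ n) {c : ℂ} (hc : ‖c‖ = 1) : ‖RR hn c‖ ≤ 1 := by
  apply ContinuousLinearMap.opNorm_le_bound _ zero_le_one
  intro x
  rw [norm_RR_apply hn hc, one_mul]

theorem det_comp' (A B : E n →L[ℝ] E n) : (A.comp B).det = A.det * B.det := by
  unfold ContinuousLinearMap.det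
  rw [ContinuousLinearMap.toLinearMap_comp, LinearMap.det_comp]

theorem det_RR (hn : 2 ≤ n) {c : ℂ} (hc : ‖c‖ = 1) : (RR hn c).det = 1 := by
  obtain ⟨d, hd⟩ := IsAlgClosed.exists_pow_nat_eq c (n := 2) (by norm_num)
  have hd1 : ‖d‖ = 1 := by
    have h1 : ‖d‖ ^ 2 = 1 := by rw [← norm_pow, hd, hc]
    have h2 : ‖d‖ ^ 2 = 1 ^ 2 := by rw [h1, one_pow]
    exact (sq_eq_sq₀ (norm_nonneg _) zero_le_one).1 h2
  have hd0 : d ≠ 0 := by
    intro h
    rw [h, norm_zero] at hd1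
    norm_num at hd1
  have hdi : ‖d⁻¹‖ = 1 := by rw [norm_inv, hd1, inv_one]
  have h1 : |(RR hn d).det| ≤ 1 :=
    (abs_det_le _).trans (pow_le_one₀ (norm_nonneg _) (norm_RR_le hn hd1))
  have h2 : |(RR hn d⁻¹).det| ≤ 1 :=
    (abs_det_le _).trans (pow_le_one₀ (norm_nonneg _) (norm_RR_le hn hdi))
  have h3 : (RR hn d⁻¹).det * (RR hn d).det = 1 := by
    rw [← det_comp', ← RR_mul, inv_mul_cancel₀ hd0, RR_one]
    unfold ContinuousLinearMap.det
    simp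
  have h4 : |(RR hn d).det| = 1 := by
    apply le_antisymm h1
    have h5 : |(RR hn d⁻¹).det| * |(RR hn d).det| = 1 := by rw [← abs_mul, h3, abs_one]
    nlinarith [abs_nonneg (RR hn d).det]
  rw [← hd, pow_two, RR_mul, det_comp', ← abs_mul_abs_self, h4, one_mul]

/-- The tangential stretching part of the derivative. -/
noncomputable def SS (k : ℕ) (e : E n) : E n →L[ℝ] E n :=
  (1 : ℝ) • ContinuousLinearMap.id ℝ (E n) + ((k : ℝ) • innerSL ℝ e).smulRight e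

theorem det_SS (hn : 2 ≤ n) (k : ℕ) {e : E n} (he : ‖e‖ = 1) : (SS k e).det = k + 1 := by
  unfold SS
  rw [det_scalar_rank hn]
  simp [he]
  ring

theorem SS_self (k : ℕ) {e : E n} (he : ‖e‖ = 1) : SS k e e = ((k : ℝ) + 1) • e := by
  simp only [SS, add_apply, smul_apply, ContinuousLinearMap.id_apply,
    ContinuousLinearMap.smulRight_apply, innerSL_apply_apply, real_inner_self_eq_norm_sq, he,
    one_smul, smul_eq_mul]
  rw [one_pow, mul_one, add_smul, one_smul, add_comm]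

theorem norm_SS_le (k : ℕ) {e : E n} (he : ‖e‖ = 1) : ‖SS k e‖ ≤ k + 1 := by
  apply ContinuousLinearMap.opNorm_le_bound _ (by positivity)
  intro v
  have h1 : ‖SS k e v‖ ^ 2 = ‖v‖ ^ 2 + (k ^ 2 + 2 * k) * ⟪e, v⟫ ^ 2 := by
    simp only [SS, add_apply, smul_apply, ContinuousLinearMap.id_apply,
      ContinuousLinearMap.smulRight_apply, innerSL_apply_apply, one_smul, smul_eq_mul]
    rw [norm_add_sq_real, real_inner_smul_right, norm_smul, he, mul_one, Real.norm_eq_abs,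
      sq_abs, real_inner_comm e v]
    ring
  have h2 : ⟪e, v⟫ ^ 2 ≤ ‖v‖ ^ 2 := by
    have h3 := abs_real_inner_le_norm e v
    rw [he, one_mul] at h3
    rw [← sq_abs]
    gcongr
  have h4 : ‖SS k e v‖ ^ 2 ≤ ((k + 1) * ‖v‖) ^ 2 := by
    rw [h1]
    have h5 : (0 : ℝ) ≤ k ^ 2 + 2 * k := by positivity
    nlinarith
  exact le_of_sq_le_sq h4 (by positivity)

theorem hasFDerivAt_wmap (hn : 2 ≤ n) (k : ℕ) {x : E n} (hx : PP hn x ≠ 0) :
    HasFDerivAt (wmap hn k) ((RR hn ((PP hn x / ‖PP hn x‖) ^ k)).comp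
      (SS k (QQ hn (Complex.I * (PP hn x / ‖PP hn x‖))))) x := by
  have h1 : HasFDerivAt (fun x : E n => wind k (PP hn x)) ((windD k (PP hn x)).comp (PP hn)) x :=
    (hasFDerivAt_wind k hx).comp x (PP hn).hasFDerivAt
  have h2 : HasFDerivAt (fun x : E n => QQ hn (wind k (PP hn x)))
      ((QQ hn).comp ((windD k (PP hn x)).comp (PP hn))) x :=
    (QQ hn).hasFDerivAt.comp x h1
  have h3 : HasFDerivAt (fun x : E n => x - QQ hn (PP hn x))
      (ContinuousLinearMap.id ℝ (E n) - (QQ hn).comp (PP hn)) x :=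
    (hasFDerivAt_id x).sub ((QQ hn).comp (PP hn)).hasFDerivAt
  refine (h3.add h2).congr_fderiv ?_
  ext1 v
  set u := PP hn x / ‖PP hn x‖ with hu
  rw [ContinuousLinearMap.comp_apply, RR_apply]
  simp only [SS, windD, add_apply, smul_apply, ContinuousLinearMap.id_apply,
    ContinuousLinearMap.smulRight_apply, innerSL_apply_apply, one_smul, smul_eq_mul,
    ContinuousLinearMap.comp_apply, sub_apply, map_add, map_smul, PP_QQ, inner_QQ, ← hu]
  rw [mul_add, mul_smul_comm]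
  simp only [map_add, map_smul]
  generalize (QQ hn) (u ^ k * (PP hn) v) = y1
  generalize (QQ hn) (u ^ k * (Complex.I * u)) = y2
  generalize (QQ hn) (Complex.I * u) = y3
  generalize (QQ hn) ((PP hn) v) = y4
  generalize ((k : ℝ) * ⟪Complex.I * u, (PP hn) v⟫) = q
  abel

theorem norm_wmap (hn : 2 ≤ n) (k : ℕ) (x : E n) : ‖wmap hn k x‖ = ‖x‖ := by
  unfold wmap
  exact norm_of_dec hn x _ (norm_wind k _)

theorem wmap_smul (hn : 2 ≤ n) (k : ℕ) (r : ℝ) (x : E n) (hr : 0 ≤ r) :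
    wmap hn k (r • x) = r • wmap hn k x := by
  unfold wmap
  rw [map_smul, map_smul, wind_smul k r hr, map_smul, smul_add, smul_sub]

theorem lipschitz_wmap (hn : 2 ≤ n) (k : ℕ) : ∃ L, LipschitzWith L (wmap hn k) := by
  refine ⟨Real.toNNReal (2 + 2 * k), LipschitzWith.of_dist_le' ?_⟩
  intro x y
  rw [dist_eq_norm, dist_eq_norm]
  have h1 : wmap hn k x - wmap hn k y = ((x - y) - QQ hn (PP hn (x - y))) +
      QQ hn (wind k (PP hn x) - wind k (PP hn y)) := by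
    unfold wmap
    simp only [map_sub]
    abel
  have h2 : ‖(x - y) - QQ hn (PP hn (x - y))‖ ≤ ‖x - y‖ := by
    have h3 := norm_sq_dec hn (x - y)
    have h4 : ‖(x - y) - QQ hn (PP hn (x - y))‖ ^ 2 ≤ ‖x - y‖ ^ 2 := by
      nlinarith [sq_nonneg ‖PP hn (x - y)‖]
    exact le_of_sq_le_sq h4 (norm_nonneg _)
  calc ‖wmap hn k x - wmap hn k y‖ ≤ ‖(x - y) - QQ hn (PP hn (x - y))‖ +
        ‖QQ hn (wind k (PP hn x) - wind k (PP hn y))‖ := by rw [h1]; exact norm_add_le _ _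
    _ ≤ ‖x - y‖ + (1 + 2 * k) * ‖PP hn x - PP hn y‖ := by
        rw [norm_QQ]
        gcongr
        exact wind_lipschitz k _ _
    _ ≤ ‖x - y‖ + (1 + 2 * k) * ‖x - y‖ := by
        rw [← map_sub]
        gcongr
        exact norm_PP_le hn _
    _ = (2 + 2 * k) * ‖x - y‖ := by ring

theorem PP_ne_ae (hn : 2 ≤ n) : ∀ᵐ x ∂(volume : Measure (E n)), PP hn x ≠ 0 := by
  have h1 : LinearMap.ker (PP hn : E n →ₗ[ℝ] ℂ) ≠ ⊤ := by
    intro h
    have h2 : QQ hn 1 ∈ LinearMap.ker (PP hn : E n →ₗ[ℝ] ℂ) := by rw [h]; trivial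
    rw [LinearMap.mem_ker] at h2
    have h3 : PP hn (QQ hn 1) = 0 := h2
    rw [PP_QQ] at h3
    exact one_ne_zero h3
  have h2 := Measure.addHaar_submodule (volume : Measure (E n)) _ h1
  rw [ae_iff]
  convert h2 using 2
  ext x
  simp

/-- **Winding maps are exact angular maps**, with constant `(k + 1)^(n - 1)`. -/
theorem exactAngular_wmap (hn : 2 ≤ n) (k : ℕ) :
    ExactAngular (((k : ℝ) + 1) ^ (n - 1)) (wmap hn k) := by
  have key : ∀ x : E n, PP hn x ≠ 0 → jac (wmap hn k) x = k + 1 ∧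
      ‖fderiv ℝ (wmap hn k) x‖ ≤ k + 1 ∧ ∃ h : E n, ‖h‖ = 1 ∧ ⟪h, x⟫ = 0 ∧
        ‖fderiv ℝ (wmap hn k) x h‖ = k + 1 := by
    intro x hx
    have hr : 0 < ‖PP hn x‖ := norm_pos_iff.2 hx
    have hu : ‖PP hn x / ‖PP hn x‖‖ = 1 := by
      rw [norm_div, Complex.norm_real, norm_norm, div_self hr.ne']
    have huk : ‖(PP hn x / ‖PP hn x‖) ^ k‖ = 1 := by rw [norm_pow, hu, one_pow]
    have he : ‖QQ hn (Complex.I * (PP hn x / ‖PP hn x‖))‖ = 1 := by
      rw [norm_QQ, norm_mul, Complex.norm_I, hu, one_mul]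
    have hD := (hasFDerivAt_wmap hn k hx).fderiv
    refine ⟨?_, ?_, QQ hn (Complex.I * (PP hn x / ‖PP hn x‖)), he, ?_, ?_⟩
    · unfold jac
      rw [hD, det_comp', det_RR hn huk, det_SS hn k he, one_mul]
    · rw [hD]
      calc _ ≤ ‖RR hn ((PP hn x / ‖PP hn x‖) ^ k)‖ *
            ‖SS k (QQ hn (Complex.I * (PP hn x / ‖PP hn x‖)))‖ :=
            ContinuousLinearMap.opNorm_comp_le _ _
        _ ≤ 1 * (k + 1) := by
            gcongr
            · exact norm_RR_le hn huk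
            · exact norm_SS_le k he
        _ = k + 1 := one_mul _
    · rw [inner_QQ, Complex.inner]
      simp
      ring
    · rw [hD, ContinuousLinearMap.comp_apply, norm_RR_apply hn huk, SS_self k he, norm_smul, he,
        mul_one, Real.norm_of_nonneg (by positivity)]
  have hpow : ((k : ℝ) + 1) ^ (n - 1) * (k + 1) = (k + 1) ^ n := by
    rw [← pow_succ]; congr 1; omega
  refine { hom := fun r x hr => wmap_smul hn k r x hr, norm_eq := norm_wmap hn k,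
           lip := lipschitz_wmap hn k, spread := ?_, exact := ?_ }
  · filter_upwards [PP_ne_ae hn] with x hx
    obtain ⟨h1, h2, h, h3, h4, h5⟩ := key x hx
    refine ⟨by rw [h1]; positivity, h, h3, h4, ?_⟩
    rw [h1, h5, hpow]
  · filter_upwards [PP_ne_ae hn] with x hx
    obtain ⟨h1, h2, _⟩ := key x hx
    rw [h1, hpow]
    gcongr

end Pool.Agent.RayM
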