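import Pool.Agent.RayM.Lower
import Pool.Agent.RayM.Wind

/-!
# Ray maps: the example is a Sobolev map; summary
-/

namespace Pool.Agent.RayM

open MeasureTheory Set Metric Filter
open scoped RealInnerProductSpace Topology

variable {n : ℕ}

theorem phi_le_one (hn : 2 ≤ n) {β r : ℝ} (hβ : 0 < β) (h : 2 < √(-Real.log r)) :
    phi n β r ≤ 1 := by
  have hn0 : (0 : ℝ) < n := by exact_mod_cast (by omega : 0 < n)
  unfold phi
  apply Real.rpow_le_one_of_one_le_of_nonpos (by linarith)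
  have : 0 < 2 * β / n := by positivity
  linarith

/-- The example is locally Lipschitz off the origin. -/
theorem locallyLipschitzOn_exG {κ : ℝ} {Ψ : E n → E n} (hΨ : Angular κ Ψ) {β : ℝ}
    (hβ : 0 < β) :
    LocallyLipschitzOn (ball (0 : E n) (Real.exp (-(4 + 2 * β))) \ {0}) (exG n β Ψ) := by
  rintro x ⟨hxb, hx0⟩
  rw [mem_ball_zero_iff] at hxb
  have hx : x ≠ 0 := hx0
  have hr : 0 < ‖x‖ := norm_pos_iff.2 hx
  have h1 : ContDiffAt ℝ 1 (fun z : E n => phi n β ‖z‖ / ‖z‖) x := by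
    have h2 : ContDiffAt ℝ 1 (fun z : E n => ‖z‖) x := contDiffAt_norm ℝ hx
    have h3 : ContDiffAt ℝ 1 (phi n β) ‖x‖ :=
      (contDiffOn_phi hβ).contDiffAt (Ioo_mem_nhds hr hxb)
    exact (h3.comp x h2).div h2 hr.ne'
  obtain ⟨K, t, ht, hK⟩ := h1.exists_lipschitzOnWith
  obtain ⟨L, hL⟩ := hΨ.lip
  obtain ⟨M, hM0, hM⟩ : ∃ M : ℝ, 0 ≤ M ∧ ∀ᶠ z in 𝓝 x, |phi n β ‖z‖ / ‖z‖| ≤ M := by
    refine ⟨|phi n β ‖x‖ / ‖x‖| + 1, by positivity, ?_⟩
    have h4 : ContinuousAt (fun z : E n => |phi n β ‖z‖ / ‖z‖|) x := h1.continuousAt.abs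
    have h5 := h4.eventually (gt_mem_nhds (lt_add_one |phi n β ‖x‖ / ‖x‖|))
    filter_upwards [h5] with z hz using hz.le
  refine ⟨Real.toNNReal (M * L + K * (‖x‖ + 1)), t ∩ ({z | |phi n β ‖z‖ / ‖z‖| ≤ M} ∩
    ball x 1), ?_, ?_⟩
  · apply mem_nhdsWithin_of_mem_nhds
    exact inter_mem ht (inter_mem hM (ball_mem_nhds x one_pos))
  · rw [lipschitzOnWith_iff_dist_le_mul]
    rintro y ⟨hyt, hyM, hyb⟩ z ⟨hzt, hzM, hzb⟩
    rw [Real.coe_toNNReal _ (by positivity), dist_eq_norm, dist_eq_norm]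
    have h6 := hK.dist_le_mul y hyt z hzt
    rw [Real.dist_eq, dist_eq_norm] at h6
    have h7 : ‖z‖ ≤ ‖x‖ + 1 := by
      rw [mem_ball, dist_eq_norm] at hzb
      calc ‖z‖ = ‖x + (z - x)‖ := by congr 1; abel
        _ ≤ ‖x‖ + ‖z - x‖ := norm_add_le _ _
        _ ≤ ‖x‖ + 1 := by linarith
    have h8 : ‖Ψ y - Ψ z‖ ≤ L * ‖y - z‖ := by
      have := hL.dist_le_mul y z
      rwa [dist_eq_norm, dist_eq_norm] at this
    have h9 : exG n β Ψ y - exG n β Ψ z = (phi n β ‖y‖ / ‖y‖) • (Ψ y - Ψ z) +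
        (phi n β ‖y‖ / ‖y‖ - phi n β ‖z‖ / ‖z‖) • Ψ z := by
      unfold exG
      rw [smul_sub, sub_smul]
      abel
    calc ‖exG n β Ψ y - exG n β Ψ z‖ ≤ |phi n β ‖y‖ / ‖y‖| * ‖Ψ y - Ψ z‖ +
          |phi n β ‖y‖ / ‖y‖ - phi n β ‖z‖ / ‖z‖| * ‖Ψ z‖ := by
          rw [h9, ← Real.norm_eq_abs, ← Real.norm_eq_abs, ← norm_smul, ← norm_smul]
          exact norm_add_le _ _
      _ ≤ M * (L * ‖y - z‖) + (K * ‖y - z‖) * (‖x‖ + 1) := by
          rw [hΨ.norm_eq]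
          gcongr
          exact hyM
      _ = (M * L + K * (‖x‖ + 1)) * ‖y - z‖ := by ring

/-- The differential of the example is integrable. -/
theorem integrableOn_norm_exG (hn : 2 ≤ n) {κ : ℝ} {Ψ : E n → E n} (hΨ : Angular κ Ψ) {β : ℝ}
    (hβ : 0 < β) : IntegrableOn (fun x => ‖fderiv ℝ (exG n β Ψ) x‖)
      (ball (0 : E n) (Real.exp (-(4 + 2 * β)))) := by
  have := nontrivial_E hn
  obtain ⟨L, hL⟩ := hΨ.lip
  set R := Real.exp (-(4 + 2 * β)) with hR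
  have h1 : IntegrableOn (fun x : E n => (L : ℝ) * ‖x‖⁻¹) (ball 0 R) := by
    have h2 := (integrableOn_fun_norm_addHaar (volume : Measure (E n))
      (f := fun y : ℝ => (L : ℝ) * y⁻¹) (r := R)).2
    apply h2
    have h3 : IntegrableOn (fun y : ℝ => (L : ℝ) * y ^ (n - 2)) (Ioo 0 R) := by
      have h4 : IntegrableOn (fun y : ℝ => (L : ℝ) * y ^ (n - 2)) (Icc 0 R) :=
        ContinuousOn.integrableOn_Icc (by fun_prop)
      exact h4.mono_set Ioo_subset_Icc_self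
    apply IntegrableOn.congr_fun h3 _ measurableSet_Ioo
    intro y hy
    have hy0 : 0 < y := hy.1
    simp only [finrank_euclideanSpace, Fintype.card_fin, smul_eq_mul]
    obtain ⟨m, rfl⟩ : ∃ m, n = m + 2 := ⟨n - 2, by omega⟩
    have e1 : m + 2 - 2 = m := by omega
    have e2 : m + 2 - 1 = m + 1 := by omega
    rw [e1, e2, pow_succ]
    field_simp
  refine Integrable.mono' h1 (measurable_norm_fderiv _).aestronglyMeasurable ?_
  rw [ae_restrict_iff' measurableSet_ball]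
  filter_upwards [ne_ae hn 0, hL.ae_differentiableAt] with x hx hd hxb
  rw [mem_ball_zero_iff] at hxb
  have hr : 0 < ‖x‖ := norm_pos_iff.2 hx
  obtain ⟨ht, hs, _⟩ := t_facts hβ hr hxb
  have hphi := phi_pos (n := n) (β := β) hs
  rw [norm_norm]
  calc ‖fderiv ℝ (exG n β Ψ) x‖ ≤ ‖fderiv ℝ Ψ x‖ * (phi n β ‖x‖ / ‖x‖) :=
        norm_fderiv_exG_le hn hΨ hβ hx hxb hd
    _ ≤ L * (1 / ‖x‖) := by
        have h5 : ‖fderiv ℝ Ψ x‖ ≤ L := norm_fderiv_le_of_lipschitz ℝ hL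
        have h6 := phi_le_one hn hβ hs
        gcongr
    _ = L * ‖x‖⁻¹ := by rw [one_div]

/-- The example, for one exact angular part. -/
theorem exists_example (hn : 2 ≤ n) {κ : ℝ} (hκ : 0 < κ) {Ψ : E n → E n}
    (hΨ : ExactAngular κ Ψ) {β : ℝ} (hβ : 0 < β) :
    ∃ (R : ℝ) (f : E n → E n), 0 < R ∧ RayMap (ball 0 R) 0 0 Ψ f ∧
      LocallyLipschitzOn (ball 0 R \ {0}) f ∧
      IntegrableOn (fun x => ‖fderiv ℝ f x‖) (ball 0 R) ∧
      IntegrableOn (fun x => Real.exp (β * distortion f x)) (ball 0 R) ∧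
      ∀ α, κ * β ≤ α → ∀ r, 0 < r →
        ¬ IntegrableOn (fun x => jac f x * Real.log (Real.exp 1 + jac f x) ^ α) (ball 0 r) := by
  have hκβ : 0 < κ * β := by positivity
  exact ⟨_, exG n (κ * β) Ψ, Real.exp_pos _, rayMap_exG hn hκ hΨ hκβ,
    locallyLipschitzOn_exG hΨ.toAngular hκβ, integrableOn_norm_exG hn hΨ.toAngular hκβ,
    integrableOn_exp_exG hn hκ hΨ hβ,
    fun α hα r hr => not_jlog_exG hn hκ hΨ hκβ hα hr⟩

/-- For every `k` there is an exact angular map with constant `(k + 1)^(n - 1)`. -/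
theorem exists_exactAngular (hn : 2 ≤ n) (k : ℕ) :
    ∃ Ψ : E n → E n, ExactAngular (((k : ℝ) + 1) ^ (n - 1)) Ψ :=
  ⟨wmap hn k, exactAngular_wmap hn k⟩

end Pool.Agent.RayM
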