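import Pool.Agent.RayM.Center

/-!
# Higher integrability below the threshold
-/

namespace Pool.Agent.RayM

open MeasureTheory Set Metric
open scoped RealInnerProductSpace ENNReal

variable {n : ℕ}

theorem measurable_jlog (f : E n → E n) (α : ℝ) :
    Measurable (fun x => jac f x * Real.log (Real.exp 1 + jac f x) ^ α) :=
  (measurable_jac f).mul (((measurable_jac f).const_add _).log.pow_const α)

theorem measurable_dlog (f : E n → E n) (α : ℝ) :
    Measurable (fun x => ‖fderiv ℝ f x‖ ^ n *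
      Real.log (Real.exp 1 + ‖fderiv ℝ f x‖) ^ (α - 1)) :=
  ((measurable_norm_fderiv f).pow_const n).mul
    (((measurable_norm_fderiv f).const_add _).log.pow_const (α - 1))

theorem jlog_near (hn : 2 ≤ n) {κ : ℝ} (hκ : 0 < κ) {U : Set (E n)} (hU : IsOpen U)
    {a b : E n} {Ψ f : E n → E n} (hΨ : Angular κ Ψ) (hf : RayMap U a b Ψ f) {x₀ : E n}
    (hx₀ : x₀ ∈ U) {α β : ℝ} (hα : 0 < α) (hβ : 0 < β) (hαβ : α < κ * β)
    (hexp : LocallyIntegrableOn (fun x => Real.exp (β * distortion f x)) U) :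
    ∃ R : ℝ, 0 < R ∧ closedBall x₀ R ⊆ U ∧
      IntegrableOn (fun x => Real.exp (β * distortion f x)) (closedBall x₀ R) ∧
      IntegrableOn (fun x => jac f x * Real.log (Real.exp 1 + jac f x) ^ α) (closedBall x₀ R) := by
  obtain ⟨Λ, hΛ1, hF⟩ := facts_ae hn hU hΨ hf
  have hΛ0 : 0 ≤ Λ := by linarith
  obtain ⟨δ, hδ, hδU⟩ := (nhds_basis_closedBall.mem_iff).1 (hU.mem_nhds hx₀)
  have := nontrivial_E hn
  by_cases hx : x₀ = a
  · subst hx
    refine ⟨δ, hδ, hδU, ?_⟩
    have hexp' : IntegrableOn (fun x => Real.exp (β * distortion f x)) (closedBall x₀ δ) :=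
      hexp.integrableOn_compact_subset hδU (isCompact_closedBall _ _)
    refine ⟨hexp', ?_⟩
    obtain ⟨M₀, hM₀⟩ := (isCompact_closedBall x₀ δ).exists_bound_of_continuousOn
      ((hf.cont.mono hδU).sub continuousOn_const (g := fun _ => b))
    set M := max M₀ 0 with hMdef
    have hM0 : 0 ≤ M := le_max_right _ _
    have hM : ∀ x ∈ closedBall x₀ δ, ‖f x - b‖ ≤ M :=
      fun x hx => (hM₀ x hx).trans (le_max_left _ _)
    obtain ⟨C, hC0, hC⟩ := jlog_le n hα.le hβ (A := Λ ^ 2 * (M / δ) ^ n) (by positivity)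
    have hfin := center_lt_top hn hκ hΨ hf hΛ0 hF hδ hδU hα hαβ hexp'
    have hmτ : Measurable (fun x : E n => jac f x * tau δ ‖x - x₀‖ ^ α) := by
      have h1 : Measurable (fun x : E n => tau δ ‖x - x₀‖) := by
        unfold tau
        fun_prop
      exact (measurable_jac f).mul (h1.pow_const α)
    have hne : ∀ᵐ x ∂(volume : Measure (E n)), x ≠ x₀ := by
      rw [ae_iff]
      simp
    have hint : IntegrableOn (fun x : E n => jac f x * tau δ ‖x - x₀‖ ^ α)
        (closedBall x₀ δ) := by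
      refine ⟨hmτ.aestronglyMeasurable, ?_⟩
      rw [hasFiniteIntegral_iff_ofReal]
      · exact hfin
      · rw [Filter.EventuallyLE, ae_restrict_iff' measurableSet_closedBall]
        filter_upwards [hF, hne] with x h1 h2 h3
        have h4 : 0 < ‖x - x₀‖ := norm_pos_iff.2 (sub_ne_zero.2 h2)
        have h5 : ‖x - x₀‖ ≤ δ := by rwa [mem_closedBall, dist_eq_norm] at h3
        have h6 := one_le_tau h4 h5
        have h7 := (h1 (hδU h3)).jac_nonneg
        simp only [Pi.zero_apply]
        positivity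
    refine Integrable.mono' ((hint.add hexp').const_mul C) (measurable_jlog f α).aestronglyMeasurable
      ?_
    rw [ae_restrict_iff' measurableSet_closedBall]
    filter_upwards [hF, hne] with x h1 h2 h3
    have F := h1 (hδU h3)
    have h4 : 0 < ‖x - x₀‖ := norm_pos_iff.2 (sub_ne_zero.2 h2)
    have h5 : ‖x - x₀‖ ≤ δ := by rwa [mem_closedBall, dist_eq_norm] at h3
    have h6 := one_le_tau h4 h5
    have h8 := one_le_log_exp_add F.jac_nonneg
    have hJ0 := F.jac_nonneg
    have hK1 := F.one_le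
    rw [Real.norm_of_nonneg (by positivity)]
    refine hC (tau δ ‖x - x₀‖) (jac f x) (distortion f x) h6 hJ0 hK1 ?_
    have h9 : ‖f x - b‖ / ‖x - x₀‖ ≤ M / δ * Real.exp (tau δ ‖x - x₀‖) := by
      have e1 : Real.exp (tau δ ‖x - x₀‖ - 1) = δ / ‖x - x₀‖ := by
        unfold tau
        rw [add_sub_cancel_left, Real.exp_log (by positivity)]
      have e2 : Real.exp (tau δ ‖x - x₀‖ - 1) ≤ Real.exp (tau δ ‖x - x₀‖) :=
        Real.exp_le_exp.2 (by linarith)
      calc ‖f x - b‖ / ‖x - x₀‖ ≤ M / ‖x - x₀‖ := by gcongr; exact hM x h3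
        _ = M / δ * (δ / ‖x - x₀‖) := by field_simp
        _ ≤ M / δ * Real.exp (tau δ ‖x - x₀‖) := by rw [← e1]; gcongr
    calc jac f x ≤ Λ ^ 2 * distortion f x * (‖f x - b‖ / ‖x - x₀‖) ^ n := F.jac_le
      _ ≤ Λ ^ 2 * distortion f x * (M / δ * Real.exp (tau δ ‖x - x₀‖)) ^ n := by gcongr
      _ = Λ ^ 2 * (M / δ) ^ n * distortion f x * Real.exp (n * tau δ ‖x - x₀‖) := by
        rw [mul_pow, ← Real.exp_nat_mul]; ring
  · have hr0 : 0 < ‖x₀ - a‖ := norm_pos_iff.2 (sub_ne_zero.2 hx)
    set r₀ := ‖x₀ - a‖ / 2 with hr₀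
    have hr₀0 : 0 < r₀ := by positivity
    set R := min δ r₀ with hR
    have hR0 : 0 < R := lt_min hδ hr₀0
    have hRU : closedBall x₀ R ⊆ U := (closedBall_subset_closedBall (min_le_left _ _)).trans hδU
    have hexp' : IntegrableOn (fun x => Real.exp (β * distortion f x)) (closedBall x₀ R) :=
      hexp.integrableOn_compact_subset hRU (isCompact_closedBall _ _)
    refine ⟨R, hR0, hRU, hexp', ?_⟩
    obtain ⟨M₀, hM₀⟩ := (isCompact_closedBall x₀ R).exists_bound_of_continuousOn
      ((hf.cont.mono hRU).sub continuousOn_const (g := fun _ => b))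
    set M := max M₀ 0 with hMdef
    have hM0 : 0 ≤ M := le_max_right _ _
    have hM : ∀ x ∈ closedBall x₀ R, ‖f x - b‖ ≤ M :=
      fun x hx => (hM₀ x hx).trans (le_max_left _ _)
    set A := Λ ^ 2 * (M / r₀) ^ n with hA
    have hA0 : 0 ≤ A := by positivity
    obtain ⟨C, hC0, hC⟩ := jlog_le n hα.le hβ hA0
    refine Integrable.mono' (hexp'.const_mul (C * (A / β + 1)))
      (measurable_jlog f α).aestronglyMeasurable ?_
    rw [ae_restrict_iff' measurableSet_closedBall]
    filter_upwards [hF] with x h1 h3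
    have F := h1 (hRU h3)
    have h8 := one_le_log_exp_add F.jac_nonneg
    have hJ0 := F.jac_nonneg
    have hK1 := F.one_le
    have h4 : r₀ ≤ ‖x - a‖ := by
      have e1 : ‖x - x₀‖ ≤ r₀ := by
        rw [mem_closedBall, dist_eq_norm] at h3
        exact h3.trans (min_le_right _ _)
      have e2 : ‖x₀ - a‖ ≤ ‖x - a‖ + ‖x - x₀‖ := by
        calc ‖x₀ - a‖ = ‖(x - a) - (x - x₀)‖ := by congr 1; abel
          _ ≤ _ := norm_sub_le _ _
      linarith
    have h5 : jac f x ≤ A * distortion f x := by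
      calc jac f x ≤ Λ ^ 2 * distortion f x * (‖f x - b‖ / ‖x - a‖) ^ n := F.jac_le
        _ ≤ Λ ^ 2 * distortion f x * (M / r₀) ^ n := by
          gcongr
          exact hM x h3
        _ = A * distortion f x := by rw [hA]; ring
    have h6 : jac f x ≤ A * distortion f x * Real.exp (n * 1) := by
      have : 1 ≤ Real.exp (n * 1) := Real.one_le_exp (by positivity)
      calc jac f x ≤ A * distortion f x := h5
        _ = A * distortion f x * 1 := (mul_one _).symm
        _ ≤ _ := by gcongr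
    have h7 := hC 1 (jac f x) (distortion f x) le_rfl hJ0 hK1 h6
    rw [Real.norm_of_nonneg (by positivity)]
    refine h7.trans ?_
    rw [Real.one_rpow, mul_one, mul_assoc]
    have h9 : distortion f x ≤ 1 / β * Real.exp (β * distortion f x) := by
      have := Real.add_one_le_exp (β * distortion f x)
      rw [div_mul_eq_mul_div, one_mul, le_div_iff₀ hβ]
      linarith
    have h10 : jac f x ≤ A / β * Real.exp (β * distortion f x) := by
      calc jac f x ≤ A * distortion f x := h5
        _ ≤ A * (1 / β * Real.exp (β * distortion f x)) := by gcongr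
        _ = _ := by ring
    gcongr
    linarith

theorem dlog_on (hn : 2 ≤ n) {κ : ℝ} {U : Set (E n)} (hU : IsOpen U) {a b : E n}
    {Ψ f : E n → E n} (hΨ : Angular κ Ψ) (hf : RayMap U a b Ψ f) {V : Set (E n)} (hV : MeasurableSet V) (hVU : V ⊆ U) {α β : ℝ}
    (hβ : 0 < β) (hexp : IntegrableOn (fun x => Real.exp (β * distortion f x)) V)
    (hj : IntegrableOn (fun x => jac f x * Real.log (Real.exp 1 + jac f x) ^ α) V) :
    IntegrableOn (fun x => ‖fderiv ℝ f x‖ ^ n *
      Real.log (Real.exp 1 + ‖fderiv ℝ f x‖) ^ (α - 1)) V := by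
  obtain ⟨Λ, hΛ1, hF⟩ := facts_ae hn hU hΨ hf
  obtain ⟨C, hC0, hC⟩ := dlog_le (n := n) (by omega) α hβ
  refine Integrable.mono' ((hj.add hexp).const_mul C) (measurable_dlog f α).aestronglyMeasurable ?_
  rw [ae_restrict_iff' hV]
  filter_upwards [hF] with x h1 h3
  have F := h1 (hVU h3)
  have h8 := one_le_log_exp_add (norm_nonneg (fderiv ℝ f x))
  rw [Real.norm_of_nonneg (by positivity)]
  exact hC _ _ _ (norm_nonneg _) F.jac_nonneg F.one_le F.norm_eq

/-- **Below the threshold.** -/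
theorem admissible_of_lt (hn : 2 ≤ n) {κ α β : ℝ} (hκ : 0 < κ) (hβ : 0 < β)
    (hαβ : α < κ * β) : Admissible n κ α β := by
  intro Ω f hΩ hexp
  have hκβ : 0 < κ * β := by positivity
  set α' := max α (κ * β / 2) with hα'
  have h1 : 0 < α' := lt_max_of_lt_right (by positivity)
  have h2 : α' < κ * β := max_lt hαβ (by linarith)
  have h3 : α ≤ α' := le_max_left _ _
  have key : ∀ x ∈ Ω, ∃ V ∈ nhds x,
      IntegrableOn (fun x => jac f x * Real.log (Real.exp 1 + jac f x) ^ α) V ∧
      IntegrableOn (fun x => ‖fderiv ℝ f x‖ ^ n *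
        Real.log (Real.exp 1 + ‖fderiv ℝ f x‖) ^ (α - 1)) V := by
    intro x hx
    obtain ⟨U, a, b, Ψ, hU, hxU, hUΩ, hΨ, hf⟩ := hΩ x hx
    obtain ⟨R, hR, hRU, hRe, hRj⟩ :=
      jlog_near hn hκ hU hΨ hf hxU h1 hβ h2 (hexp.mono_set hUΩ)
    have hRd := dlog_on hn hU hΨ hf measurableSet_closedBall hRU hβ hRe hRj
    obtain ⟨Λ, hΛ1, hF⟩ := facts_ae hn hU hΨ hf
    refine ⟨closedBall x R, closedBall_mem_nhds x hR, ?_, ?_⟩
    · refine Integrable.mono' hRj (measurable_jlog f α).aestronglyMeasurable ?_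
      rw [ae_restrict_iff' measurableSet_closedBall]
      filter_upwards [hF] with y h4 h5
      have hJ0 := (h4 (hRU h5)).jac_nonneg
      have h6 := one_le_log_exp_add hJ0
      rw [Real.norm_of_nonneg (by positivity)]
      exact mul_le_mul_of_nonneg_left (Real.rpow_le_rpow_of_exponent_le h6 h3) hJ0
    · refine Integrable.mono' hRd (measurable_dlog f α).aestronglyMeasurable ?_
      filter_upwards with y
      have h6 := one_le_log_exp_add (norm_nonneg (fderiv ℝ f y))
      rw [Real.norm_of_nonneg (by positivity)]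
      exact mul_le_mul_of_nonneg_left (Real.rpow_le_rpow_of_exponent_le h6 (by linarith))
        (by positivity)
  constructor
  · intro x hx
    obtain ⟨V, hV, h4, _⟩ := key x hx
    exact ⟨V, mem_nhdsWithin_of_mem_nhds hV, h4⟩
  · intro x hx
    obtain ⟨V, hV, _, h4⟩ := key x hx
    exact ⟨V, mem_nhdsWithin_of_mem_nhds hV, h4⟩

end Pool.Agent.RayM
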