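import Pool.Agent.RayM.Ex3
import Pool.Agent.RayM.Upper

/-!
# Failure at and above the threshold
-/

namespace Pool.Agent.RayM

open MeasureTheory Set Metric Filter
open scoped RealInnerProductSpace Topology

variable {n : ℕ}

theorem jac_exG_lower (hn : 2 ≤ n) {κ : ℝ} (hκ : 0 < κ) {Ψ : E n → E n} (hΨ : Angular κ Ψ)
    {β : ℝ} (hβ : 0 < β) {x : E n} (hx : x ≠ 0) (hxR : ‖x‖ < Real.exp (-(4 + 2 * β)))
    (hd : DifferentiableAt ℝ Ψ x) (he : ‖fderiv ℝ Ψ x‖ ^ n ≤ κ * jac Ψ x) :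
    1 / κ * (β / n * ‖x‖⁻¹ ^ n * (-Real.log ‖x‖) ^ (-β - 1)) ≤ jac (exG n β Ψ) x := by
  have hn0 : (0 : ℝ) < n := by exact_mod_cast (by omega : 0 < n)
  have hr : 0 < ‖x‖ := norm_pos_iff.2 hx
  obtain ⟨ht, hs, hs2⟩ := t_facts hβ hr hxR
  have hphi := phi_pos (n := n) (β := β) hs
  have hk := one_le_kk hn hβ hr hxR
  have hj := inv_le_jac hκ hΨ hx hd he
  set t := -Real.log ‖x‖ with htdef
  have ht0 : 0 < t := by linarith
  have h1 : t ^ (-β) ≤ phi n β ‖x‖ ^ n := by
    have h2 : √t ^ (-(2 * β / n)) ≤ phi n β ‖x‖ := by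
      unfold phi
      exact Real.rpow_le_rpow_of_nonpos (by linarith) (by linarith)
        (by have : 0 < 2 * β / n := by positivity
            linarith)
    calc t ^ (-β) = (√t ^ (-(2 * β / n))) ^ n := by
          rw [Real.sqrt_eq_rpow, ← Real.rpow_mul ht0.le, ← Real.rpow_natCast, ← Real.rpow_mul ht0.le]
          congr 1
          field_simp
      _ ≤ phi n β ‖x‖ ^ n := by gcongr
  have h3 : kk n β ‖x‖ ≤ n / β * t := by
    unfold kk
    rw [← htdef]
    gcongr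
    linarith
  rw [jac_exG hn hΨ hβ hx hxR hd]
  apply mul_le_mul hj _ (by positivity) (by linarith [show 0 < 1 / κ by positivity])
  rw [le_div_iff₀ (by linarith), div_pow]
  calc β / n * ‖x‖⁻¹ ^ n * t ^ (-β - 1) * kk n β ‖x‖
      ≤ β / n * ‖x‖⁻¹ ^ n * t ^ (-β - 1) * (n / β * t) := by gcongr
    _ = ‖x‖⁻¹ ^ n * (t ^ (-β - 1) * t) := by field_simp
    _ = ‖x‖⁻¹ ^ n * t ^ (-β) := by
        rw [← Real.rpow_add_one ht0.ne']
        ring_nf
    _ ≤ ‖x‖⁻¹ ^ n * phi n β ‖x‖ ^ n := by gcongr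
    _ = _ := by rw [inv_pow]; field_simp

theorem not_jlog_exG (hn : 2 ≤ n) {κ : ℝ} (hκ : 0 < κ) {Ψ : E n → E n}
    (hΨ : ExactAngular κ Ψ) {α β : ℝ} (hβ : 0 < β) (hα : β ≤ α) {r₁ : ℝ} (hr₁ : 0 < r₁) :
    ¬ IntegrableOn (fun x => jac (exG n β Ψ) x *
      Real.log (Real.exp 1 + jac (exG n β Ψ) x) ^ α) (ball (0 : E n) r₁) := by
  intro hint
  have := nontrivial_E hn
  have hn0 : (0 : ℝ) < n := by exact_mod_cast (by omega : 0 < n)
  have hn2 : (2 : ℝ) ≤ n := by exact_mod_cast hn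
  obtain ⟨C, hC, hCx⟩ := rpow_le_exp (β + 1) (c := 1 / 2) (by norm_num)
  obtain ⟨L, hL⟩ := hΨ.toAngular.lip
  set T₁ := 2 * Real.log (κ * n * C / β) with hT₁
  set r₂ := min r₁ (min (Real.exp (-(4 + 2 * β))) (Real.exp (-T₁))) with hr₂
  have hr₂0 : 0 < r₂ := lt_min hr₁ (lt_min (Real.exp_pos _) (Real.exp_pos _))
  have hlow : ∀ x : E n, x ≠ 0 → ‖x‖ < r₂ → DifferentiableAt ℝ Ψ x →
      ‖fderiv ℝ Ψ x‖ ^ n ≤ κ * jac Ψ x →
      1 / κ * (β / n * (‖x‖⁻¹ ^ n / (-Real.log ‖x‖))) ≤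
      jac (exG n β Ψ) x * Real.log (Real.exp 1 + jac (exG n β Ψ) x) ^ α := by
    intro x hx hxr hd he
    have hr : 0 < ‖x‖ := norm_pos_iff.2 hx
    have hxR : ‖x‖ < Real.exp (-(4 + 2 * β)) :=
      hxr.trans_le ((min_le_right _ _).trans (min_le_left _ _))
    have hxT : ‖x‖ < Real.exp (-T₁) :=
      hxr.trans_le ((min_le_right _ _).trans (min_le_right _ _))
    obtain ⟨ht, hs, hs2⟩ := t_facts hβ hr hxR
    have hJl := jac_exG_lower hn hκ hΨ.toAngular hβ hx hxR hd he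
    have htT : T₁ < -Real.log ‖x‖ := by
      have := (Real.log_lt_iff_lt_exp hr).2 hxT
      linarith
    have hrt : ‖x‖⁻¹ ^ n = Real.exp (n * (-Real.log ‖x‖)) := by
      rw [Real.exp_nat_mul, Real.exp_neg, Real.exp_log hr]
    set t := -Real.log ‖x‖ with htdef
    set J := jac (exG n β Ψ) x with hJ
    have ht0 : 0 < t := by linarith
    have hpow : t ^ (-β - 1) = (t ^ (β + 1))⁻¹ := by
      rw [← Real.rpow_neg ht0.le]; ring_nf
    have hJt : Real.exp t ≤ J := by
      have h1 := hCx t (by linarith)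
      have h2 : κ * n * C / β ≤ Real.exp (1 / 2 * t) := by
        have h3 : Real.exp (T₁ / 2) = κ * n * C / β := by
          rw [hT₁, mul_div_cancel_left₀ _ (two_ne_zero), Real.exp_log (by positivity)]
        rw [← h3]
        apply Real.exp_le_exp.2
        linarith
      have h4 : Real.exp (2 * t) ≤ Real.exp (n * t) := by
        apply Real.exp_le_exp.2
        nlinarith
      calc Real.exp t = 1 / κ * (β / n) * (κ * n * C / β) * Real.exp t / C := by field_simp
        _ ≤ 1 / κ * (β / n) * Real.exp (1 / 2 * t) * Real.exp t / C := by gcongr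
        _ = 1 / κ * (β / n * Real.exp (2 * t) * (C * Real.exp (1 / 2 * t))⁻¹) := by
            have : Real.exp (2 * t) = Real.exp (1 / 2 * t) * Real.exp (1 / 2 * t) *
                Real.exp t := by
              rw [← Real.exp_add, ← Real.exp_add]; ring_nf
            rw [this]
            field_simp
        _ ≤ 1 / κ * (β / n * Real.exp (n * t) * (t ^ (β + 1))⁻¹) := by gcongr
        _ = 1 / κ * (β / n * ‖x‖⁻¹ ^ n * t ^ (-β - 1)) := by rw [hrt, hpow]
        _ ≤ J := hJl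
    have hJ0 : 0 < J := (Real.exp_pos t).trans_le hJt
    have hlog : t ≤ Real.log (Real.exp 1 + J) := by
      rw [Real.le_log_iff_exp_le (by positivity)]
      linarith [Real.exp_pos 1]
    have hl1 := one_le_log_exp_add hJ0.le
    calc 1 / κ * (β / n * (‖x‖⁻¹ ^ n / t)) =
          1 / κ * (β / n * ‖x‖⁻¹ ^ n * t ^ (-β - 1)) * t ^ β := by
          rw [mul_assoc _ _ (t ^ β), mul_assoc _ (t ^ (-β - 1)), ← Real.rpow_add ht0]
          have : -β - 1 + β = -1 := by ring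
          rw [this, Real.rpow_neg_one]
          ring
      _ ≤ J * Real.log (Real.exp 1 + J) ^ β := by gcongr
      _ ≤ J * Real.log (Real.exp 1 + J) ^ α :=
          mul_le_mul_of_nonneg_left (Real.rpow_le_rpow_of_exponent_le hl1 hα) hJ0.le
  -- the lower bound is integrable near the origin
  have h1 : IntegrableOn (fun x : E n => 1 / κ * (β / n * (‖x‖⁻¹ ^ n / (-Real.log ‖x‖))))
      (ball 0 r₂) := by
    have hint' := hint.mono_set (ball_subset_ball (min_le_left _ _ : r₂ ≤ r₁))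
    refine Integrable.mono' hint' ?_ ?_
    · apply Measurable.aestronglyMeasurable
      fun_prop
    · rw [ae_restrict_iff' measurableSet_ball]
      filter_upwards [ne_ae hn 0, hL.ae_differentiableAt, hΨ.exact] with x hx hd he hxb
      rw [mem_ball_zero_iff] at hxb
      have hr : 0 < ‖x‖ := norm_pos_iff.2 hx
      have hxR : ‖x‖ < Real.exp (-(4 + 2 * β)) :=
        hxb.trans_le ((min_le_right _ _).trans (min_le_left _ _))
      obtain ⟨ht, hs, hs2⟩ := t_facts hβ hr hxR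
      have ht0 : 0 < -Real.log ‖x‖ := by linarith
      rw [Real.norm_of_nonneg (by positivity)]
      exact hlow x hx hxb hd he
  have h2 := (integrableOn_fun_norm_addHaar (volume : Measure (E n))
    (f := fun y : ℝ => 1 / κ * (β / n * (y⁻¹ ^ n / (-Real.log y)))) (r := r₂)).1 h1
  apply not_integrableOn_inv_log hr₂0
  have h3 := h2.const_mul (κ * (n / β) : ℝ)
  apply IntegrableOn.congr_fun h3 _ measurableSet_Ioo
  intro y hy
  have hy0 : 0 < y := hy.1
  simp only [finrank_euclideanSpace, Fintype.card_fin, smul_eq_mul]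
  obtain ⟨m, rfl⟩ : ∃ m, n = m + 1 := ⟨n - 1, by omega⟩
  have h5 : y ^ m * y⁻¹ ^ (m + 1) = y⁻¹ := by
    rw [inv_pow, pow_succ, mul_inv, ← mul_assoc, mul_inv_cancel₀ (by positivity), one_mul]
  rw [Nat.add_sub_cancel]
  calc κ * (((m + 1 : ℕ) : ℝ) / β) *
        (y ^ m * (1 / κ * (β / ((m + 1 : ℕ) : ℝ) * (y⁻¹ ^ (m + 1) / (-Real.log y)))))
      = (y ^ m * y⁻¹ ^ (m + 1)) / (-Real.log y) := by field_simp
    _ = _ := by rw [h5]

end Pool.Agent.RayM
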