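import Pool.Agent.RayM.Defs

/-!
# Pointwise facts for ray maps
-/

namespace Pool.Agent.RayM

open MeasureTheory Set Metric
open scoped RealInnerProductSpace

variable {n : ℕ}

/-- In dimension at least two a linear form has a nonzero vector in its kernel. -/
theorem exists_ker (hn : 2 ≤ n) (L : E n →L[ℝ] ℝ) : ∃ h : E n, h ≠ 0 ∧ L h = 0 := by
  by_contra hcon
  push Not at hcon
  have hinj : Function.Injective (L : E n →ₗ[ℝ] ℝ) := by
    rw [← LinearMap.ker_eq_bot, LinearMap.ker_eq_bot']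
    intro m hm
    by_contra hne
    exact hcon m hne hm
  have h1 := LinearMap.finrank_le_finrank_of_injective hinj
  simp at h1
  omega

theorem det_scalar_rank (hn : 2 ≤ n) (c : ℝ) (L : E n →L[ℝ] ℝ) (y : E n) :
    (c • ContinuousLinearMap.id ℝ (E n) + L.smulRight y).det = c ^ (n - 1) * (c + L y) := by
  by_cases hc : c = 0
  · subst hc
    have h0 : (0 : ℝ) ^ (n - 1) = 0 := zero_pow (by omega)
    rw [h0, zero_mul]
    obtain ⟨h, hne, hL⟩ := exists_ker hn L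
    unfold ContinuousLinearMap.det
    rw [LinearMap.det_eq_zero_iff_ker_ne_bot]
    intro hbot
    apply hne
    have h2 : h ∈ LinearMap.ker ((0 : ℝ) • ContinuousLinearMap.id ℝ (E n) + L.smulRight y :
        E n →L[ℝ] E n).toLinearMap := by
      simp [LinearMap.mem_ker, hL]
    rw [hbot] at h2
    simpa using h2
  · have h1 : ((c • ContinuousLinearMap.id ℝ (E n) + L.smulRight y : E n →L[ℝ] E n) :
        E n →ₗ[ℝ] E n) = c • LinearMap.transvection (c⁻¹ • (L : E n →ₗ[ℝ] ℝ)) y := by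
      ext1 v
      simp [LinearMap.transvection.apply, smul_smul, hc]
    unfold ContinuousLinearMap.det
    rw [h1, LinearMap.det_smul, LinearMap.transvection.det]
    simp only [finrank_euclideanSpace, Fintype.card_fin, LinearMap.smul_apply,
      ContinuousLinearMap.coe_coe, smul_eq_mul]
    obtain ⟨m, rfl⟩ : ∃ m, n = m + 1 := ⟨n - 1, by omega⟩
    simp only [Nat.add_sub_cancel]
    rw [pow_succ]
    field_simp

theorem abs_det_le (A : E n →L[ℝ] E n) : |A.det| ≤ ‖A‖ ^ n := by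
  have h1 := Measure.addHaar_image_continuousLinearMap (volume : Measure (E n)) A (closedBall 0 1)
  have h2 : A '' closedBall 0 1 ⊆ closedBall 0 ‖A‖ := by
    rintro _ ⟨v, hv, rfl⟩
    rw [mem_closedBall_zero_iff] at hv ⊢
    calc ‖A v‖ ≤ ‖A‖ * ‖v‖ := A.le_opNorm v
      _ ≤ ‖A‖ * 1 := by gcongr
      _ = ‖A‖ := mul_one _
  have h3 : (volume : Measure (E n)) (closedBall (0 : E n) ‖A‖) =
      ENNReal.ofReal (‖A‖ ^ n) * (volume : Measure (E n)) (ball 0 1) := by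
    rw [Measure.addHaar_closedBall _ _ (norm_nonneg A)]; simp
  have h4 : (volume : Measure (E n)) (closedBall (0 : E n) 1) =
      (volume : Measure (E n)) (ball 0 1) := by
    rw [Measure.addHaar_closedBall _ _ (zero_le_one)]; simp
  have h5 := measure_mono (μ := (volume : Measure (E n))) h2
  rw [h1, h3, h4] at h5
  have h6 : (volume : Measure (E n)) (ball 0 1) ≠ 0 := (measure_ball_pos _ _ one_pos).ne'
  have h7 : (volume : Measure (E n)) (ball 0 1) ≠ ⊤ := measure_ball_lt_top.ne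
  have h8 := (ENNReal.mul_le_mul_iff_left h6 h7).1 h5
  exact (ENNReal.ofReal_le_ofReal_iff (by positivity)).1 h8

theorem Angular.euler {κ : ℝ} {Ψ : E n → E n} (hΨ : Angular κ Ψ) {y : E n}
    (hd : DifferentiableAt ℝ Ψ y) : fderiv ℝ Ψ y y = Ψ y := by
  have h1 : HasDerivAt (fun r : ℝ => Ψ (r • y)) (fderiv ℝ Ψ y y) 1 := by
    have h2 : HasDerivAt (fun r : ℝ => r • y) y 1 := by
      simpa using (hasDerivAt_id (1 : ℝ)).smul_const y
    have h3 : HasFDerivAt Ψ (fderiv ℝ Ψ y) ((1 : ℝ) • y) := by simpa using hd.hasFDerivAt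
    exact h3.comp_hasDerivAt (1 : ℝ) h2
  have h4 : HasDerivAt (fun r : ℝ => Ψ (r • y)) (Ψ y) 1 := by
    have h5 : HasDerivAt (fun r : ℝ => r • Ψ y) (Ψ y) 1 := by
      simpa using (hasDerivAt_id (1 : ℝ)).smul_const (Ψ y)
    apply h5.congr_of_eventuallyEq
    filter_upwards [lt_mem_nhds (show (0 : ℝ) < 1 by norm_num)] with r hr
    exact hΨ.hom r y hr.le
  exact h1.unique h4

theorem Angular.inner_deriv {κ : ℝ} {Ψ : E n → E n} (hΨ : Angular κ Ψ) {y : E n}
    (hd : DifferentiableAt ℝ Ψ y) (h : E n) : ⟪Ψ y, fderiv ℝ Ψ y h⟫ = ⟪y, h⟫ := by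
  have h1 := hd.hasFDerivAt.norm_sq
  have h2 := (hasFDerivAt_id (𝕜 := ℝ) y).norm_sq
  have heq : (fun z => ‖Ψ z‖ ^ 2) = fun z : E n => ‖id z‖ ^ 2 := by
    ext z; rw [hΨ.norm_eq]; rfl
  rw [heq] at h1
  have h3 := h1.unique h2
  have h4 := congrArg (fun T : E n →L[ℝ] ℝ => T h) h3
  simpa using h4

/-- The pointwise facts at a good point. -/
theorem pt_facts (hn : 2 ≤ n) {κ : ℝ} {a b x : E n} {Ψ f : E n → E n} (hΨ : Angular κ Ψ)
    (hxa : x ≠ a)
    (hray : ∀ᶠ z in nhds x, ∃ c : ℝ, 0 ≤ c ∧ f z = b + c • Ψ (z - a))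
    (hf : DifferentiableAt ℝ f x) (hd : DifferentiableAt ℝ Ψ (x - a))
    (hsp : 0 ≤ jac Ψ (x - a) ∧
      ∃ h : E n, ‖h‖ = 1 ∧ ⟪h, x - a⟫ = 0 ∧ κ * jac Ψ (x - a) ≤ ‖fderiv ℝ Ψ (x - a) h‖ ^ n) :
    jac f x = (‖f x - b‖ / ‖x - a‖) ^ (n - 1) *
      (⟪fderiv ℝ f x (x - a), Ψ (x - a)⟫ / ‖x - a‖ ^ 2) * jac Ψ (x - a) ∧
    κ * ((‖f x - b‖ / ‖x - a‖) ^ n * jac Ψ (x - a)) ≤ ‖fderiv ℝ f x‖ ^ n ∧
    ⟪fderiv ℝ f x (x - a), Ψ (x - a)⟫ / ‖x - a‖ ^ 2 ≤ ‖fderiv ℝ f x‖ := by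
  set y : E n := x - a with hy
  have hy0 : y ≠ 0 := sub_ne_zero.2 hxa
  have hyn : 0 < ‖y‖ := norm_pos_iff.2 hy0
  set T := fderiv ℝ Ψ y with hT
  set g : E n → ℝ := fun z => ⟪f z - b, Ψ (z - a)⟫ / ‖z - a‖ ^ 2 with hg
  have hΨa : HasFDerivAt (fun z => Ψ (z - a)) T x := by
    have h1 : HasFDerivAt (fun z : E n => z - a) (ContinuousLinearMap.id ℝ (E n)) x :=
      (hasFDerivAt_id x).sub_const a
    have h2 := HasFDerivAt.comp x (g := Ψ) (f := fun z : E n => z - a) hd.hasFDerivAt h1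
    rw [ContinuousLinearMap.comp_id] at h2
    exact h2
  have hgd : DifferentiableAt ℝ g x := by
    have h1 : DifferentiableAt ℝ (fun z => ⟪f z - b, Ψ (z - a)⟫) x :=
      (hf.sub_const b).inner ℝ hΨa.differentiableAt
    have h2 : DifferentiableAt ℝ (fun z : E n => ‖z - a‖ ^ 2) x :=
      (differentiableAt_id.sub_const a).norm_sq ℝ
    have h3 : DifferentiableAt ℝ (fun z : E n => (‖z - a‖ ^ 2)⁻¹) x :=
      h2.inv (pow_ne_zero 2 hyn.ne')
    have h4 := h1.mul h3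
    simp only [hg, div_eq_mul_inv]
    exact h4
  set L := fderiv ℝ g x with hL
  have hgc : ∀ z, z ≠ a → ∀ c : ℝ, f z = b + c • Ψ (z - a) → g z = c := by
    intro z hz c hc
    have hza : ‖z - a‖ ≠ 0 := norm_ne_zero_iff.2 (sub_ne_zero.2 hz)
    simp only [hg, hc]
    rw [add_sub_cancel_left, real_inner_smul_left, real_inner_self_eq_norm_sq, hΨ.norm_eq]
    field_simp
  have hfg : f =ᶠ[nhds x] fun z => b + g z • Ψ (z - a) := by
    filter_upwards [hray, isOpen_ne.mem_nhds hxa] with z hz hza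
    obtain ⟨c, _, hc⟩ := hz
    rw [hgc z hza c hc]; exact hc
  obtain ⟨c, hc0, hcx⟩ := hray.self_of_nhds
  have hgx : g x = c := hgc x hxa c hcx
  have hG : ‖f x - b‖ / ‖y‖ = c := by
    rw [hcx, add_sub_cancel_left, norm_smul, hΨ.norm_eq, Real.norm_of_nonneg hc0, ← hy]
    field_simp
  have hDf : fderiv ℝ f x = c • T + L.smulRight (Ψ y) := by
    have h1 : HasFDerivAt f (g x • T + L.smulRight (Ψ y)) x :=
      ((hgd.hasFDerivAt.smul hΨa).const_add b).congr_of_eventuallyEq hfg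
    rw [h1.fderiv, hgx]
  have hTy : T y = Ψ y := hΨ.euler hd
  have hTi : ∀ h, ⟪Ψ y, T h⟫ = ⟪y, h⟫ := fun h => hΨ.inner_deriv hd h
  have hcomp : fderiv ℝ f x = T.comp (c • ContinuousLinearMap.id ℝ (E n) + L.smulRight y) := by
    rw [hDf]
    ext1 v
    simp [hTy]
  have hP : ⟪fderiv ℝ f x y, Ψ y⟫ / ‖y‖ ^ 2 = c + L y := by
    rw [hDf]
    simp only [add_apply, smul_apply,
      ContinuousLinearMap.smulRight_apply, hTy]
    rw [← add_smul, real_inner_smul_left, real_inner_self_eq_norm_sq, hΨ.norm_eq]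
    field_simp
  set D := ‖fderiv ℝ f x‖ with hD
  have hPD : c + L y ≤ D := by
    have h1 : fderiv ℝ f x y = (c + L y) • Ψ y := by
      rw [hDf]
      simp only [add_apply, smul_apply,
        ContinuousLinearMap.smulRight_apply, hTy]
      rw [← add_smul]
    have h2 := (fderiv ℝ f x).le_opNorm y
    rw [h1, norm_smul, hΨ.norm_eq] at h2
    have h3 : ‖c + L y‖ ≤ D := le_of_mul_le_mul_right h2 hyn
    exact (le_abs_self _).trans h3
  rw [hP, hG]
  refine ⟨?_, ?_, hPD⟩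
  · unfold jac
    rw [hcomp]
    have h1 : (T.comp (c • ContinuousLinearMap.id ℝ (E n) + L.smulRight y)).det =
        T.det * (c • ContinuousLinearMap.id ℝ (E n) + L.smulRight y).det := by
      unfold ContinuousLinearMap.det
      rw [ContinuousLinearMap.toLinearMap_comp, LinearMap.det_comp]
    rw [h1, det_scalar_rank hn]
    ring
  · -- vectors orthogonal to `y`
    have horth : ∀ h : E n, ⟪y, h⟫ = 0 → c * ‖T h‖ ≤ D * ‖h‖ := by
      intro h hh
      have h1 : ‖fderiv ℝ f x h‖ ^ 2 = c ^ 2 * ‖T h‖ ^ 2 + (L h) ^ 2 * ‖y‖ ^ 2 := by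
        rw [hDf]
        simp only [add_apply, smul_apply,
          ContinuousLinearMap.smulRight_apply]
        rw [norm_add_sq_real, real_inner_smul_left, real_inner_smul_right, real_inner_comm,
          hTi, hh, norm_smul, norm_smul, hΨ.norm_eq, mul_pow, mul_pow, Real.norm_eq_abs,
          Real.norm_eq_abs, sq_abs, sq_abs]
        ring
      have h2 := (fderiv ℝ f x).le_opNorm h
      have h3 : (c * ‖T h‖) ^ 2 ≤ (D * ‖h‖) ^ 2 := by
        calc (c * ‖T h‖) ^ 2 = c ^ 2 * ‖T h‖ ^ 2 := by ring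
          _ ≤ ‖fderiv ℝ f x h‖ ^ 2 := by rw [h1]; nlinarith [sq_nonneg (L h * ‖y‖)]
          _ ≤ (D * ‖h‖) ^ 2 := by gcongr
      exact le_of_sq_le_sq h3 (by positivity)
    obtain ⟨_, h, hh1, hh2, hh3⟩ := hsp
    have h4 := horth h (by rw [real_inner_comm]; exact hh2)
    rw [hh1, mul_one] at h4
    calc κ * (c ^ n * jac Ψ y) = c ^ n * (κ * jac Ψ y) := by ring
      _ ≤ c ^ n * ‖T h‖ ^ n := by gcongr
      _ = (c * ‖T h‖) ^ n := by rw [mul_pow]
      _ ≤ D ^ n := by gcongr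

end Pool.Agent.RayM
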